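import Mathlib

set_option autoImplicit false

namespace Pool.Agent.H.MP_7a5b4a_gt

open Filter Topology Set

structure Rad (r : ℝ → ℝ) : Prop where
  lip : ∀ s t, r s ≤ r t + |s - t|
  pos : ∀ t, 0 < r t
  tri : ∀ s t, |s - t| ≤ r s + r t

variable {r : ℝ → ℝ}

lemma Rad.refl (h : Rad r) : Rad (fun t => r (-t)) where
  lip s t := by have := h.lip (-s) (-t); rwa [neg_sub_neg, abs_sub_comm] at this
  pos t := h.pos _
  tri s t := by have := h.tri (-s) (-t); rwa [neg_sub_neg, abs_sub_comm] at this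

lemma Rad.cont (h : Rad r) : Continuous r := by
  apply LipschitzWith.continuous (K := 1)
  apply LipschitzWith.of_le_add
  intro s t
  simpa [Real.dist_eq] using h.lip s t

lemma Rad.mono (h : Rad r) : Monotone (fun t => t - r t) := by
  intro s t hst
  have := h.lip t s
  rw [abs_of_nonneg (by linarith)] at this
  show s - r s ≤ t - r t
  linarith

lemma Rad.le (h : Rad r) (s t : ℝ) : s - r s ≤ t + r t := by
  have := h.tri s t
  have := le_abs_self (s - t)
  linarith

lemma Rad.ex_b (h : Rad r) : ∃ b : ℝ, Tendsto (fun t => t - r t) atTop (𝓝 b) ∧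
    (∀ t, t - r t ≤ b) ∧ ∀ t, b ≤ t + r t := by
  have bd : BddAbove (range fun t => t - r t) := ⟨0 + r 0, by rintro _ ⟨t, rfl⟩; exact h.le t 0⟩
  exact ⟨⨆ t, (t - r t), tendsto_atTop_ciSup h.mono bd, fun t => le_ciSup bd t,
    fun t => ciSup_le fun s => h.le s t⟩

lemma Rad.orbit (h : Rad r) (m : ℝ) :
    Tendsto (fun n : ℕ => (fun t => t + r t)^[n] m) atTop atTop := by
  have e : ∀ n : ℕ, (fun t => t + r t)^[n + 1] m =
      (fun t => t + r t)^[n] m + r ((fun t => t + r t)^[n] m) := fun n =>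
    Function.iterate_succ_apply' _ _ _
  have mono : Monotone (fun n : ℕ => (fun t => t + r t)^[n] m) := by
    apply monotone_nat_of_le_succ
    intro n
    rw [e]; linarith [h.pos ((fun t => t + r t)^[n] m)]
  rcases tendsto_of_monotone mono with h1 | ⟨l, h1⟩
  · exact h1
  · exfalso
    have h2 := (tendsto_add_atTop_iff_nat 1).2 h1
    simp only [e] at h2
    have h3 := h1.add ((h.cont.tendsto l).comp h1)
    have := tendsto_nhds_unique h2 h3
    linarith [h.pos l]

lemma Rad.maxp (h : Rad r) {ρ : ℝ → ℝ} {c : ℝ} (hc : Continuous ρ)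
    (h1 : Tendsto ρ atTop (𝓝 c)) (h2 : Tendsto ρ atBot (𝓝 c))
    (hm : ∀ m, ∃ p q : ℝ, 0 < p ∧ 0 < q ∧ (p + q) * ρ m = p * ρ (m - r m) + q * ρ (m + r m))
    (x : ℝ) : ρ x ≤ c := by
  by_contra hx
  push Not at hx
  obtain ⟨y, hy⟩ := hc.exists_forall_ge' x (by
    rw [cocompact_eq_atBot_atTop, eventually_sup]
    exact ⟨(h2.eventually (gt_mem_nhds hx)).mono fun _ h => h.le,
      (h1.eventually (gt_mem_nhds hx)).mono fun _ h => h.le⟩)
  have ind : ∀ n : ℕ, ρ ((fun t => t + r t)^[n] y) = ρ y := by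
    intro n
    induction n with
    | zero => rfl
    | succ n ih =>
      rw [Function.iterate_succ_apply']
      generalize (fun t => t + r t)^[n] y = m at ih
      obtain ⟨p, q, hp, hq, e⟩ := hm m
      have k1 := hy (m - r m)
      have k2 := hy (m + r m)
      apply le_antisymm k2
      rw [ih] at e
      nlinarith
  have h3 := h1.comp (h.orbit y)
  have h4 := tendsto_nhds_unique (h3.congr (f₂ := fun _ => ρ y) ind) tendsto_const_nhds
  linarith [hy x]

lemma Rad.hyp (h : Rad r)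
    (hrel : ∀ m, Real.cosh (r (m - r m)) + Real.cosh (r (m + r m)) = 2 * Real.cosh (r m) ^ 2) :
    ∃ A B : ℝ, ∀ t, Real.cosh (r t) = A * Real.exp t + B * Real.exp (-t) := by
  have lim : ∀ {r : ℝ → ℝ} {b : ℝ} (b' : ℝ), Tendsto (fun t => t - r t) atTop (𝓝 b) →
      Tendsto (fun t => Real.cosh (r t) / ((Real.exp (t - b) + Real.exp (-t - b')) / 2)) atTop
        (𝓝 1) := by
    intro r b b' hb
    have e : (fun t => Real.cosh (r t) / ((Real.exp (t - b) + Real.exp (-t - b')) / 2)) =
        fun t => (Real.exp (-(t - r t)) + Real.exp (t - r t) * Real.exp (-t) * Real.exp (-t)) /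
          (Real.exp (-b) + Real.exp (-b') * Real.exp (-t) * Real.exp (-t)) := by
      funext t
      rw [Real.cosh_eq]
      simp only [Real.exp_sub, Real.exp_neg]
      field_simp
    rw [e]
    have t0 := Real.tendsto_exp_neg_atTop_nhds_zero
    have t1 := (Real.continuous_exp.tendsto _).comp hb.neg
    have t2 := (Real.continuous_exp.tendsto _).comp hb
    have t3 := (t1.add ((t2.mul t0).mul t0)).div
      (((t0.const_mul (Real.exp (-b'))).mul t0).const_add (Real.exp (-b)))
      (by simp)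
    simp only [mul_zero, add_zero, div_self (Real.exp_pos (-b)).ne'] at t3
    exact t3
  obtain ⟨b, hb, -⟩ := h.ex_b
  obtain ⟨b', hb', -⟩ := h.refl.ex_b
  set E : ℝ → ℝ := fun t => (Real.exp (t - b) + Real.exp (-t - b')) / 2 with hE
  have E0 : ∀ t, 0 < E t := fun t => by positivity
  have l1 : Tendsto (fun t => Real.cosh (r t) / E t) atTop (𝓝 1) := lim b' hb
  have l2 : Tendsto (fun t => Real.cosh (r t) / E t) atBot (𝓝 1) := by
    have := (lim b hb').comp tendsto_neg_atBot_atTop
    refine this.congr fun t => ?_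
    simp [hE, add_comm]
  have hc : Continuous (fun t => Real.cosh (r t) / E t) :=
    (Real.continuous_cosh.comp h.cont).div (by fun_prop) (fun t => (E0 t).ne')
  have hm : ∀ m, (E (m - r m) + E (m + r m)) * (Real.cosh (r m) / E m) =
      E (m - r m) * (Real.cosh (r (m - r m)) / E (m - r m)) +
      E (m + r m) * (Real.cosh (r (m + r m)) / E (m + r m)) := by
    intro m
    have e : E (m - r m) + E (m + r m) = 2 * Real.cosh (r m) * E m := by
      simp only [hE, Real.cosh_eq, Real.exp_sub, Real.exp_neg, Real.exp_add]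
      field_simp; ring
    rw [mul_div_cancel₀ _ (E0 _).ne', mul_div_cancel₀ _ (E0 _).ne', hrel, e, mul_assoc,
      mul_div_cancel₀ _ (E0 _).ne']
    ring
  have k1 := h.maxp hc l1 l2 (fun m => ⟨_, _, E0 _, E0 _, hm m⟩)
  have k2 := h.maxp (ρ := fun t => -(Real.cosh (r t) / E t)) hc.neg l1.neg l2.neg
    (fun m => ⟨_, _, E0 (m - r m), E0 (m + r m), by linarith [hm m]⟩)
  refine ⟨Real.exp (-b) / 2, Real.exp (-b') / 2, fun t => ?_⟩
  have k3 : Real.cosh (r t) / E t = 1 := le_antisymm (k1 t) (by linarith [k2 t])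
  rw [div_eq_one_iff_eq (E0 t).ne'] at k3
  rw [k3]
  simp only [hE, sub_eq_add_neg, Real.exp_add]
  ring

lemma Rad.minp (h : Rad r) {w : ℝ → ℝ} (hc : Continuous w) (hb : BddBelow (range w))
    (hm : ∀ m, w (m - r m) + w (m + r m) = 2 * w m) :
    ∃ x, (∀ y, w x ≤ w y) ∧ ∀ n : ℕ, w ((fun t => t + r t)^[n] x) = w x ∧
      w ((fun t => t + r t)^[n] x - r ((fun t => t + r t)^[n] x)) = w x := by
  have r0 := h.pos 0
  obtain ⟨x, -, hx⟩ := (isCompact_Icc (a := -r 0) (b := r 0)).exists_isMinOn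
    ⟨0, by constructor <;> linarith⟩ hc.continuousOn
  have hmin : ∀ y, w x ≤ w y := by
    have hi : w x ≤ ⨅ y, w y := by
      by_contra hn
      push Not at hn
      obtain ⟨m, hm2⟩ := exists_lt_of_ciInf_lt (f := w) (a := ((⨅ y, w y) + w x) / 2) (by linarith)
      have k1 := ciInf_le hb (m - r m)
      have k2 := ciInf_le hb (m + r m)
      have k3 := hm m
      rcases le_total 0 m with h0 | h0
      · have k4 : w x ≤ w (m - r m) := hx ⟨by simpa using h.mono h0, by simpa using h.le m 0⟩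
        linarith
      · have k5 := h.refl.mono (neg_nonneg.2 h0)
        have k6 := h.le 0 m
        simp at k5
        have k4 : w x ≤ w (m + r m) := hx ⟨by linarith, by linarith⟩
        linarith
    exact fun y => le_trans hi (ciInf_le hb y)
  have step : ∀ m, w m = w x → w (m + r m) = w x ∧ w (m - r m) = w x := by
    intro m e
    have k1 := hmin (m - r m)
    have k2 := hmin (m + r m)
    have k3 := hm m
    constructor <;> linarith
  have ind : ∀ n : ℕ, w ((fun t => t + r t)^[n] x) = w x := by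
    intro n
    induction n with
    | zero => rfl
    | succ n ih => rw [Function.iterate_succ_apply']; exact (step _ ih).1
  exact ⟨x, hmin, fun n => ⟨ind n, (step _ (ind n)).2⟩⟩

lemma Rad.min_b (h : Rad r) {w : ℝ → ℝ} (hc : Continuous w) (hb : BddBelow (range w))
    (hm : ∀ m, w (m - r m) + w (m + r m) = 2 * w m) {b : ℝ}
    (hl : Tendsto (fun t => t - r t) atTop (𝓝 b)) (y : ℝ) : w b ≤ w y := by
  obtain ⟨x, h1, h2⟩ := h.minp hc hb hm
  have h3 := (hc.tendsto b).comp (hl.comp (h.orbit x))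
  have h4 := tendsto_nhds_unique (h3.congr (f₂ := fun _ => w x) (fun n => (h2 n).2))
    tendsto_const_nhds
  rw [h4]; exact h1 y

lemma Rad.bdd (h : Rad r) (hrel : ∀ m, r (m - r m) ^ 2 + r (m + r m) ^ 2 = 4 * r m ^ 2) {b : ℝ}
    (hl : Tendsto (fun t => t - r t) atTop (𝓝 b)) (hb : ∀ t, t - r t ≤ b) :
    ∃ S : ℝ, ∀ t, 0 ≤ t → r t ^ 2 - (t - b) ^ 2 ≤ S := by
  have r0 := h.pos 0
  have hc : Continuous (fun t => r t ^ 2 - (t - b) ^ 2) := by have := h.cont; fun_prop
  obtain ⟨x, -, hx⟩ := (isCompact_Icc (a := -r 0) (b := r 0)).exists_isMaxOn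
    ⟨0, by constructor <;> linarith⟩ hc.continuousOn
  refine ⟨r x ^ 2 - (x - b) ^ 2, fun m hm => ?_⟩
  by_contra hn
  push Not at hn
  set S := r x ^ 2 - (x - b) ^ 2 with hS
  set δ := r m ^ 2 - (m - b) ^ 2 - S with hδ
  have δ0 : 0 < δ := by linarith
  have ind : ∀ n : ℕ, 0 ≤ (fun t => t + r t)^[n] m ∧
      (fun t => t + r t)^[n] m + r 0 ≤ 2 ^ n * (m + r 0) ∧
      2 ^ n * δ ≤ r ((fun t => t + r t)^[n] m) ^ 2 - ((fun t => t + r t)^[n] m - b) ^ 2 - S := by
    intro n
    induction n with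
    | zero => simp [hm, hδ]
    | succ n ih =>
      rw [Function.iterate_succ_apply']
      generalize (fun t => t + r t)^[n] m = t at ih
      obtain ⟨i1, i2, i3⟩ := ih
      have k1 : -r 0 ≤ t - r t := by simpa using h.mono i1
      have k2 : r (t - r t) ^ 2 - (t - r t - b) ^ 2 ≤ S := hx ⟨k1, by simpa using h.le t 0⟩
      have k3 := hrel t
      refine ⟨by linarith [h.pos t], by rw [pow_succ]; linarith, ?_⟩
      rw [pow_succ]; nlinarith
  have b0 : -r 0 ≤ b := by simpa using hb 0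
  have S0 : 0 ≤ S := by
    have k : r 0 ^ 2 - (0 - b) ^ 2 ≤ S := hx ⟨by linarith, by linarith⟩
    have b1 : b ≤ r 0 := le_of_tendsto' hl (fun t => by simpa using h.le t 0)
    nlinarith
  have C0 : 0 < 2 * (m + r 0) := by positivity
  have key : ∀ n : ℕ, δ / (2 * (m + r 0)) ≤
      b - ((fun t => t + r t)^[n] m - r ((fun t => t + r t)^[n] m)) := by
    intro n
    obtain ⟨i1, i2, i3⟩ := ind n
    generalize (fun t => t + r t)^[n] m = t at i1 i2 i3
    have k1 : -r 0 ≤ t - r t := by simpa using h.mono i1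
    have k2 := hb t
    have e : r t ^ 2 - (t - b) ^ 2 = (b - (t - r t)) * (r t + t - b) := by ring
    have k3 : (b - (t - r t)) * (r t + t - b) ≤ (b - (t - r t)) * (2 ^ n * (2 * (m + r 0))) := by
      apply mul_le_mul_of_nonneg_left _ (by linarith)
      linarith
    rw [div_le_iff₀ C0]
    have p : (0 : ℝ) < 2 ^ n := by positivity
    apply le_of_mul_le_mul_left _ p
    nlinarith
  have t1 := (hl.comp (h.orbit m)).const_sub b
  have := ge_of_tendsto' t1 key
  have : 0 < δ / (2 * (m + r 0)) := by positivity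
  linarith

lemma Rad.euc (h : Rad r) (hrel : ∀ m, r (m - r m) ^ 2 + r (m + r m) ^ 2 = 4 * r m ^ 2) :
    ∃ b c : ℝ, ∀ t, r t ^ 2 = (t - b) ^ 2 + c := by
  obtain ⟨b, hl, hb1, hb2⟩ := h.ex_b
  obtain ⟨b', hl', hb1', hb2'⟩ := h.refl.ex_b
  have hrel' : ∀ m, r (-(m - r (-m))) ^ 2 + r (-(m + r (-m))) ^ 2 = 4 * r (-m) ^ 2 := by
    intro m
    have := hrel (-m)
    rw [show -(m - r (-m)) = -m + r (-m) by ring, show -(m + r (-m)) = -m - r (-m) by ring]
    linarith
  have hc : Continuous (fun t => r t ^ 2 - (t - b) ^ 2) := by have := h.cont; fun_prop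
  have nn : ∀ t, 0 ≤ r t ^ 2 - (t - b) ^ 2 := by
    intro t
    have := hb1 t
    have := hb2 t
    nlinarith
  have hm : ∀ m, (r (m - r m) ^ 2 - (m - r m - b) ^ 2) + (r (m + r m) ^ 2 - (m + r m - b) ^ 2) =
      2 * (r m ^ 2 - (m - b) ^ 2) := fun m => by linear_combination hrel m
  have bb : b' = -b := by
    have le1 : b' ≤ -b := le_of_tendsto' hl' (fun t => by linarith [hb2 (-t)])
    apply le_antisymm le1
    by_contra hn
    push Not at hn
    obtain ⟨x, -, h2⟩ := h.refl.minp (w := fun t => r (-t) ^ 2 - (-t - b) ^ 2)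
      (hc.comp continuous_neg) ⟨0, by rintro _ ⟨t, rfl⟩; exact nn _⟩ (fun m => by
        have := hm (-m)
        rw [show -(m - r (-m)) = -m + r (-m) by ring, show -(m + r (-m)) = -m - r (-m) by ring]
        linarith)
    obtain ⟨n, hn2⟩ := ((h.refl.orbit x).eventually
      (eventually_gt_atTop ((r (-x) ^ 2 - (-x - b) ^ 2) / (-b - b') - b))).exists
    have k := (h2 n).1
    generalize (fun t => t + r (-t))^[n] x = t at hn2 k
    have k1 := hb1' t
    have k2 := h.pos (-t)
    have p : 0 < -b - b' := by linarith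
    rw [sub_lt_iff_lt_add, div_lt_iff₀ p, ← k] at hn2
    have k3 := nn (-x)
    have e : r (-t) ^ 2 - (-t - b) ^ 2 = (r (-t) - t - b) * (r (-t) + t + b) := by ring
    have k4 := hb1 (-t)
    rw [e] at hn2
    nlinarith
  obtain ⟨S, hS⟩ := h.bdd hrel hl hb1
  obtain ⟨S', hS'⟩ := h.refl.bdd hrel' hl' hb1'
  have k1 := h.min_b hc ⟨0, by rintro _ ⟨t, rfl⟩; exact nn _⟩ hm hl
  have k2 := h.min_b (w := fun t => -(r t ^ 2 - (t - b) ^ 2)) hc.neg ⟨-max S S', by
    rintro _ ⟨t, rfl⟩
    rcases le_total 0 t with h0 | h0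
    · have := hS t h0
      have := le_max_left S S'
      show -max S S' ≤ -(r t ^ 2 - (t - b) ^ 2)
      linarith
    · have := hS' (-t) (by linarith)
      rw [bb, neg_neg] at this
      have := le_max_right S S'
      show -max S S' ≤ -(r t ^ 2 - (t - b) ^ 2)
      nlinarith⟩ (fun m => by linarith [hm m]) hl
  refine ⟨b, r b ^ 2, fun t => ?_⟩
  have := k1 t
  have := k2 t
  nlinarith

end Pool.Agent.H.MP_7a5b4a_gt
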