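import Mathlib

set_option autoImplicit false

namespace Pool.Agent.H.MP_7a5b4a_gt

open Filter Topology Set

variable {W : Type*} [AddCommGroup W] [Module ℝ W]

/-- a map of a convex plane set to a vector space that is linear along segments up to weights -/
structure LP (M : Set (ℝ × ℝ)) (ρ : ℝ × ℝ → ℝ × ℝ → ℝ) (Ψ : ℝ × ℝ → W) : Prop where
  conv : Convex ℝ M
  cont : ContinuousOn (fun p : (ℝ × ℝ) × (ℝ × ℝ) => ρ p.1 p.2) (M ×ˢ M)
  pos : ∀ x ∈ M, ∀ y ∈ M, x ≠ y → 0 < ρ x y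
  rel : ∀ x ∈ M, ∀ z ∈ M, x ≠ z → ∀ θ : ℝ, 0 < θ → θ < 1 →
    ρ x z • Ψ (x + θ • (z - x)) = ρ (x + θ • (z - x)) z • Ψ x + ρ x (x + θ • (z - x)) • Ψ z

variable {M : Set (ℝ × ℝ)} {ρ : ℝ × ℝ → ℝ × ℝ → ℝ} {Ψ : ℝ × ℝ → W}

lemma LP.mem (h : LP M ρ Ψ) {x z : ℝ × ℝ} (hx : x ∈ M) (hz : z ∈ M) {θ : ℝ} (h0 : 0 ≤ θ)
    (h1 : θ ≤ 1) : x + θ • (z - x) ∈ M := h.conv.add_smul_sub_mem hx hz ⟨h0, h1⟩

lemma ne_mid {x z : ℝ × ℝ} (hne : x ≠ z) {θ : ℝ} (h0 : 0 < θ) (h1 : θ < 1) :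
    x ≠ x + θ • (z - x) ∧ x + θ • (z - x) ≠ z := by
  have : z - x ≠ 0 := sub_ne_zero.2 hne.symm
  constructor
  · intro h
    have h2 : θ • (z - x) = 0 := by simpa using h
    exact smul_ne_zero h0.ne' this h2
  · intro h
    have h2 : (1 - θ) • (z - x) = 0 := by
      have : (1 - θ) • (z - x) = z - (x + θ • (z - x)) := by module
      rw [this, h, sub_self]
    exact smul_ne_zero (by linarith) this h2

lemma LP.comb (h : LP M ρ Ψ) {x z : ℝ × ℝ} (hx : x ∈ M) (hz : z ∈ M) (hne : x ≠ z) {θ : ℝ}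
    (h0 : 0 < θ) (h1 : θ < 1) : Ψ (x + θ • (z - x)) =
      (ρ (x + θ • (z - x)) z / ρ x z) • Ψ x + (ρ x (x + θ • (z - x)) / ρ x z) • Ψ z := by
  have p := h.pos x hx z hz hne
  have := congrArg (fun w => (ρ x z)⁻¹ • w) (h.rel x hx z hz hne θ h0 h1)
  simp only [smul_add, smul_smul, inv_mul_cancel₀ p.ne', one_smul] at this
  rw [this, div_eq_inv_mul, div_eq_inv_mul]

lemma LP.comb' (h : LP M ρ Ψ) {x z : ℝ × ℝ} (hx : x ∈ M) (hz : z ∈ M) (hne : x ≠ z) {θ : ℝ}
    (h0 : 0 < θ) (h1 : θ < 1) :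
    ∃ p q : ℝ, 0 < p ∧ 0 < q ∧ Ψ (x + θ • (z - x)) = p • Ψ x + q • Ψ z := by
  have hy := h.mem hx hz h0.le h1.le
  obtain ⟨n1, n2⟩ := ne_mid hne h0 h1
  exact ⟨_, _, div_pos (h.pos _ hy _ hz n2) (h.pos _ hx _ hz hne),
    div_pos (h.pos _ hx _ hy n1) (h.pos _ hx _ hz hne), h.comb hx hz hne h0 h1⟩

lemma LP.side (h : LP M ρ Ψ) {U V : ℝ × ℝ} (hU : U ∈ M) (hV : V ∈ M) (hne : U ≠ V) :
    ∃ G : ℝ → ℝ, Continuous G ∧ ∀ u : ℝ, ∃ k : ℝ, 0 < k ∧
      Ψ (U + (1 / (Real.exp u + 1)) • (V - U)) = k • (Real.exp (G u) • Ψ U + Ψ V) := by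
  have t0 : ∀ u : ℝ, 0 < 1 / (Real.exp u + 1) := fun u => by positivity
  have t1 : ∀ u : ℝ, 1 / (Real.exp u + 1) < 1 := fun u => by
    rw [div_lt_one (by positivity)]; linarith [Real.exp_pos u]
  have hy := fun u => h.mem hU hV (t0 u).le (t1 u).le
  have p1 := fun u => h.pos _ (hy u) _ hV (ne_mid hne (t0 u) (t1 u)).2
  have p2 := fun u => h.pos _ hU _ (hy u) (ne_mid hne (t0 u) (t1 u)).1
  have cy : Continuous (fun u : ℝ => U + (1 / (Real.exp u + 1)) • (V - U)) := by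
    have : Continuous (fun u : ℝ => 1 / (Real.exp u + 1)) :=
      continuous_const.div (by fun_prop) (fun u => by positivity)
    fun_prop
  have c1 : Continuous (fun u : ℝ => ρ (U + (1 / (Real.exp u + 1)) • (V - U)) V) :=
    h.cont.comp_continuous (cy.prodMk continuous_const) (fun u => ⟨hy u, hV⟩)
  have c2 : Continuous (fun u : ℝ => ρ U (U + (1 / (Real.exp u + 1)) • (V - U))) :=
    h.cont.comp_continuous (continuous_const.prodMk cy) (fun u => ⟨hU, hy u⟩)
  refine ⟨fun u => Real.log (ρ (U + (1 / (Real.exp u + 1)) • (V - U)) V /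
    ρ U (U + (1 / (Real.exp u + 1)) • (V - U))), (c1.div c2 fun u => (p2 u).ne').log
    (fun u => (div_pos (p1 u) (p2 u)).ne'), fun u => ⟨_, div_pos (p2 u) (h.pos _ hU _ hV hne), ?_⟩⟩
  rw [h.comb hU hV hne (t0 u) (t1 u), Real.exp_log (div_pos (p1 u) (p2 u)), smul_add, smul_smul]
  congr 2
  have := (p2 u).ne'
  field_simp

def Ind (a b c : W) : Prop := ∀ p q r : ℝ, p • a + q • b + r • c = 0 → p = 0 ∧ q = 0 ∧ r = 0

lemma Ind.eq {a b c : W} (h : Ind a b c) {p q r p' q' r' : ℝ}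
    (e : p • a + q • b + r • c = p' • a + q' • b + r' • c) : p = p' ∧ q = q' ∧ r = r' := by
  have := h (p - p') (q - q') (r - r') (by
    rw [← sub_eq_zero] at e; rw [← e]; module)
  exact ⟨by linarith [this.1], by linarith [this.2.1], by linarith [this.2.2]⟩

lemma LP.cev (h : LP M ρ Ψ) {A B C : ℝ × ℝ} (hA : A ∈ M) (hB : B ∈ M) (hC : C ∈ M)
    (hi : Ind (Ψ A) (Ψ B) (Ψ C)) {G : ℝ → ℝ} (hG : ∀ u : ℝ, ∃ k : ℝ, 0 < k ∧
      Ψ (B + (1 / (Real.exp u + 1)) • (C - B)) = k • (Real.exp (G u) • Ψ B + Ψ C))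
    {α β γ : ℝ} (a0 : 0 < α) (b0 : 0 < β) (c0 : 0 < γ) (hs : α + β + γ = 1) :
    ∃ a c : ℝ, 0 < a ∧ 0 < c ∧ Ψ (α • A + β • B + γ • C) =
      a • Ψ A + (Real.exp (G (Real.log β - Real.log γ)) * c) • Ψ B + c • Ψ C := by
  obtain ⟨k, k0, hk⟩ := hG (Real.log β - Real.log γ)
  have e1 : 1 / (Real.exp (Real.log β - Real.log γ) + 1) = γ / (β + γ) := by
    rw [Real.exp_sub, Real.exp_log b0, Real.exp_log c0]; field_simp
  rw [e1] at hk
  have hy := h.mem hB hC (θ := γ / (β + γ)) (by positivity)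
    (by rw [div_le_one (by positivity)]; linarith)
  have hne : A ≠ B + (γ / (β + γ)) • (C - B) := by
    intro e
    rw [← e] at hk
    have := (hi 1 (-(k * Real.exp (G (Real.log β - Real.log γ)))) (-k) (by
      rw [hk]; module)).1
    exact one_ne_zero this
  obtain ⟨p, q, p0, q0, e⟩ := h.comb' hA hy hne (θ := β + γ) (by positivity) (by linarith)
  have e2 : A + (β + γ) • (B + (γ / (β + γ)) • (C - B) - A) = α • A + β • B + γ • C := by
    have : α = 1 - β - γ := by linarith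
    rw [smul_sub, smul_add, smul_smul, mul_div_cancel₀ _ (by positivity), this]; module
  rw [e2, hk] at e
  exact ⟨p, q * k, p0, by positivity, by rw [e]; module⟩

lemma LP.inner (h : LP M ρ Ψ) {A B C : ℝ × ℝ} (hA : A ∈ M) (hB : B ∈ M) (hC : C ∈ M)
    (hi : Ind (Ψ A) (Ψ B) (Ψ C)) : ∃ wA wB : ℝ, 0 < wA ∧ 0 < wB ∧ ∀ α β γ : ℝ, 0 < α → 0 < β →
      0 < γ → α + β + γ = 1 → ∃ l : ℝ, 0 < l ∧ Ψ (α • A + β • B + γ • C) =
        l • ((wA * α) • Ψ A + (wB * β) • Ψ B + γ • Ψ C) := by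
  have hi2 : Ind (Ψ B) (Ψ C) (Ψ A) := fun p q r e => by
    have := hi r p q (by rw [← e]; module); tauto
  have hi3 : Ind (Ψ C) (Ψ A) (Ψ B) := fun p q r e => by
    have := hi q r p (by rw [← e]; module); tauto
  have n1 : B ≠ C := fun e => one_ne_zero (hi 0 1 (-1) (by rw [e]; module)).2.1
  have n2 : C ≠ A := fun e => one_ne_zero (hi 1 0 (-1) (by rw [e]; module)).1
  have n3 : A ≠ B := fun e => one_ne_zero (hi 1 (-1) 0 (by rw [e]; module)).1
  obtain ⟨G1, c1, g1⟩ := h.side hB hC n1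
  obtain ⟨G2, -, g2⟩ := h.side hC hA n2
  obtain ⟨G3, -, g3⟩ := h.side hA hB n3
  have int : ∀ α β γ : ℝ, 0 < α → 0 < β → 0 < γ → α + β + γ = 1 → ∃ a b c : ℝ, 0 < a ∧ 0 < b ∧
      0 < c ∧ Ψ (α • A + β • B + γ • C) = a • Ψ A + b • Ψ B + c • Ψ C ∧
      b = Real.exp (G1 (Real.log β - Real.log γ)) * c ∧
      c = Real.exp (G2 (Real.log γ - Real.log α)) * a ∧
      a = Real.exp (G3 (Real.log α - Real.log β)) * b := by
    intro α β γ a0 b0 c0 hs
    obtain ⟨a, c, p1, p2, e1⟩ := h.cev hA hB hC hi g1 a0 b0 c0 hs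
    obtain ⟨b', a', q1, q2, e2⟩ := h.cev hB hC hA hi2 g2 b0 c0 a0 (by linarith)
    obtain ⟨c'', b'', r1, r2, e3⟩ := h.cev hC hA hB hi3 g3 c0 a0 b0 (by linarith)
    rw [show β • B + γ • C + α • A = α • A + β • B + γ • C by module] at e2
    rw [show γ • C + α • A + β • B = α • A + β • B + γ • C by module] at e3
    have k2 := hi.eq (e1.symm.trans (e2.trans (show _ = a' • Ψ A + b' • Ψ B +
      (Real.exp (G2 (Real.log γ - Real.log α)) * a') • Ψ C by module)))
    have k3 := hi.eq (e1.symm.trans (e3.trans (show _ =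
      (Real.exp (G3 (Real.log α - Real.log β)) * b'') • Ψ A + b'' • Ψ B + c'' • Ψ C by module)))
    refine ⟨a, _, c, p1, by positivity, p2, e1, rfl, by rw [k2.1]; exact k2.2.2, ?_⟩
    rw [k3.2.1]; exact k3.1
  have sum : ∀ u v : ℝ, G1 u + G2 v + G3 (-u - v) = 0 := by
    intro u v
    have s0 : 0 < Real.exp (-v) + Real.exp u + 1 := by positivity
    obtain ⟨a, b, c, a0, b0, c0, -, e1, e2, e3⟩ := int (Real.exp (-v) / (Real.exp (-v) + Real.exp u + 1))
      (Real.exp u / (Real.exp (-v) + Real.exp u + 1)) (1 / (Real.exp (-v) + Real.exp u + 1))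
      (by positivity) (by positivity) (by positivity) (by field_simp)
    simp only [Real.log_div (Real.exp_pos _).ne' s0.ne', Real.log_div one_ne_zero s0.ne',
      Real.log_exp, Real.log_one] at e1 e2 e3
    rw [show u - Real.log (Real.exp (-v) + Real.exp u + 1) -
      (0 - Real.log (Real.exp (-v) + Real.exp u + 1)) = u by ring] at e1
    rw [show 0 - Real.log (Real.exp (-v) + Real.exp u + 1) -
      (-v - Real.log (Real.exp (-v) + Real.exp u + 1)) = v by ring] at e2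
    rw [show -v - Real.log (Real.exp (-v) + Real.exp u + 1) -
      (u - Real.log (Real.exp (-v) + Real.exp u + 1)) = -u - v by ring] at e3
    rw [← Real.exp_eq_one_iff, Real.exp_add, Real.exp_add]
    apply mul_right_cancel₀ a0.ne'
    rw [one_mul]
    conv_rhs => rw [e3, e1, e2]
    ring
  have f2 : ∀ v, G2 v = G1 v - G1 0 + G2 0 := fun v => by
    have k1 := sum v 0
    have k2 := sum 0 v
    simp only [sub_zero, neg_zero, zero_sub] at k1 k2
    linarith
  let φ : ℝ →+ ℝ := AddMonoidHom.mk' (fun u => G1 u - G1 0) (fun u v => by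
    have k1 := sum u v
    have k2 := sum (u + v) 0
    rw [show -(u + v) - 0 = -u - v by ring] at k2
    have := f2 v
    linarith)
  have lin : ∀ u, G1 u = G1 0 + u * φ 1 := fun u => by
    have := map_real_smul φ (c1.sub continuous_const) u 1
    simp only [smul_eq_mul, mul_one] at this
    have e : φ u = G1 u - G1 0 := rfl
    linarith
  have k1 : φ 1 = 1 := by
    obtain ⟨k, k0, e1⟩ := g2 0
    obtain ⟨k', k0', e2⟩ := g1 0
    simp only [Real.exp_zero] at e1 e2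
    have hX := h.mem hC hA (θ := 1 / (1 + 1)) (by norm_num) (by norm_num)
    have hY := h.mem hB hC (θ := 1 / (1 + 1)) (by norm_num) (by norm_num)
    have hne : C + (1 / (1 + 1) : ℝ) • (A - C) ≠ B + (1 / (1 + 1) : ℝ) • (C - B) := by
      intro e
      rw [e, e2] at e1
      have := (hi.eq (p := 0) (p' := k) (q := k' * Real.exp (G1 0)) (q' := 0) (r := k')
        (r' := k * Real.exp (G2 0)) (by
          rw [show (0 : ℝ) • Ψ A + (k' * Real.exp (G1 0)) • Ψ B + k' • Ψ C =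
            k' • (Real.exp (G1 0) • Ψ B + Ψ C) by module, e1]; module)).1
      linarith
    obtain ⟨p, q, p0, q0, e⟩ := h.comb' hX hY hne (θ := 1 / 2) (by norm_num) (by norm_num)
    obtain ⟨a, b, c, a0, b0, c0, e', f1, f2', f3⟩ := int (1 / 4) (1 / 4) (1 / 2) (by norm_num)
      (by norm_num) (by norm_num) (by norm_num)
    rw [show C + (1 / (1 + 1) : ℝ) • (A - C) + (1 / 2 : ℝ) • (B + (1 / (1 + 1) : ℝ) • (C - B) -
      (C + (1 / (1 + 1) : ℝ) • (A - C))) = (1 / 4 : ℝ) • A + (1 / 4 : ℝ) • B + (1 / 2 : ℝ) • C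
      by module, e', e1, e2] at e
    obtain ⟨j1, j2, j3⟩ := hi.eq (e.trans (show _ = (p * k) • Ψ A + (q * k' * Real.exp (G1 0)) • Ψ B
      + (p * k * Real.exp (G2 0) + q * k') • Ψ C by module))
    have s := sum 0 0
    simp only [neg_zero, sub_self] at s f3
    have l2 : Real.log (1 / 2) - Real.log (1 / 4) = Real.log 2 := by
      rw [← Real.log_div (by norm_num) (by norm_num)]; norm_num
    rw [l2, f2, lin (Real.log 2)] at f2'
    have e4 : Real.exp (G1 0) * Real.exp (G2 0) * Real.exp (G3 0) = 1 := by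
      rw [← Real.exp_add, ← Real.exp_add, s, Real.exp_zero]
    have e5 : q * k' = Real.exp (G2 0) * a := by
      rw [f3, j2]; linear_combination (-(q * k')) * e4
    have e6 : Real.exp (Real.log 2 * φ 1) = 2 := by
      rw [show G1 0 + Real.log 2 * φ 1 - G1 0 + G2 0 = Real.log 2 * φ 1 + G2 0 by ring,
        Real.exp_add, j3, e5, ← j1] at f2'
      apply mul_right_cancel₀ (mul_pos (Real.exp_pos (G2 0)) a0).ne'
      linarith
    have e7 := congrArg Real.log e6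
    rw [Real.log_exp] at e7
    have l0 : 0 < Real.log 2 := Real.log_pos (by norm_num)
    apply mul_left_cancel₀ l0.ne'
    linarith
  refine ⟨Real.exp (-G2 0), Real.exp (G1 0), Real.exp_pos _, Real.exp_pos _,
    fun α β γ a0 b0 c0 hs => ?_⟩
  obtain ⟨a, b, c, a0', b0', c0', e, f1, f2', -⟩ := int α β γ a0 b0 c0 hs
  rw [f2, lin, k1, mul_one, show G1 0 + (Real.log γ - Real.log α) - G1 0 + G2 0 =
    Real.log γ - Real.log α + G2 0 by ring, Real.exp_add, Real.exp_sub, Real.exp_log a0,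
    Real.exp_log c0] at f2'
  rw [lin, k1, mul_one, Real.exp_add, Real.exp_sub, Real.exp_log b0, Real.exp_log c0] at f1
  refine ⟨c / γ, by positivity, ?_⟩
  rw [e, smul_add, smul_add, smul_smul, smul_smul, smul_smul]
  congr 2
  · congr 1
    rw [f2', Real.exp_neg]; field_simp
  · congr 1
    rw [f1]; field_simp
  · field_simp

theorem LP.ft (h : LP M ρ Ψ) {A B C : ℝ × ℝ} (hA : A ∈ M) (hB : B ∈ M) (hC : C ∈ M)
    (hi : Ind (Ψ A) (Ψ B) (Ψ C)) : ∃ wA wB : ℝ, 0 < wA ∧ 0 < wB ∧ ∀ α β γ : ℝ,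
      α + β + γ = 1 → α • A + β • B + γ • C ∈ M → ∃ l : ℝ, 0 < l ∧ Ψ (α • A + β • B + γ • C) =
        l • ((wA * α) • Ψ A + (wB * β) • Ψ B + γ • Ψ C) := by
  obtain ⟨wA, wB, wa, wb, H⟩ := h.inner hA hB hC hi
  refine ⟨wA, wB, wa, wb, fun α β γ hs hx => ?_⟩
  have ext1 : ∀ a b c : ℝ, 0 < a → 0 < b → 0 < c → a + b + c = 1 → ∃ p q : ℝ, 0 < p ∧
      Ψ (α • A + β • B + γ • C) = (wA * (p * α + q * a)) • Ψ A + (wB * (p * β + q * b)) • Ψ B +
        (p * γ + q * c) • Ψ C := by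
    intro a b c a0 b0 c0 hs'
    obtain ⟨l, l0, e⟩ := H a b c a0 b0 c0 hs'
    have hy : a • A + b • B + c • C ∈ M := by
      have := h.conv.sum_mem (t := Finset.univ) (w := ![a, b, c]) (z := ![A, B, C])
        (fun i _ => by fin_cases i <;> simp <;> linarith) (by simpa [Fin.sum_univ_three] using hs')
        (fun i _ => by fin_cases i <;> simpa)
      simpa [Fin.sum_univ_three] using this
    have lim : ∀ s t : ℝ, 0 < s → ∀ᶠ ε : ℝ in 𝓝[>] 0, 0 < s + ε * (t - s) := by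
      intro s t hs
      have : Tendsto (fun ε : ℝ => s + ε * (t - s)) (𝓝 0) (𝓝 (s + 0 * (t - s))) :=
        (by fun_prop : Continuous fun ε : ℝ => s + ε * (t - s)).tendsto 0
      exact (this.eventually (lt_mem_nhds (by simpa using hs))).filter_mono nhdsWithin_le_nhds
    obtain ⟨ε, ⟨⟨⟨k1, k2⟩, k3⟩, k4⟩, k5⟩ := (((((lim a α a0).and (lim b β b0)).and
      (lim c γ c0)).and (Ioo_mem_nhdsGT (zero_lt_one (α := ℝ)))).and self_mem_nhdsWithin).exists
    obtain ⟨l', l0', e'⟩ := H _ _ _ k1 k2 k3 (by linear_combination (1 - ε) * hs' + ε * hs)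
    by_cases hne : a • A + b • B + c • C = α • A + β • B + γ • C
    · by_cases hc : a = α ∧ b = β ∧ c = γ
      · refine ⟨l, 0, l0, ?_⟩
        rw [← hne, e, hc.1, hc.2.1, hc.2.2]; module
      · exfalso
        have e3 : (a + ε * (α - a)) • A + (b + ε * (β - b)) • B + (c + ε * (γ - c)) • C =
            a • A + b • B + c • C := by
          have : (a + ε * (α - a)) • A + (b + ε * (β - b)) • B + (c + ε * (γ - c)) • C =
            a • A + b • B + c • C + ε • (α • A + β • B + γ • C - (a • A + b • B + c • C)) := by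
            module
          rw [this, hne]; simp
        rw [e3, e] at e'
        obtain ⟨j1, j2, j3⟩ := hi.eq (p := l * (wA * a)) (q := l * (wB * b)) (r := l * c)
          (p' := l' * (wA * (a + ε * (α - a)))) (q' := l' * (wB * (b + ε * (β - b))))
          (r' := l' * (c + ε * (γ - c))) (by
            rw [← smul_smul, ← smul_smul l, ← smul_smul l, ← smul_add, ← smul_add, e']; module)
        have i1 : l * a = l' * (a + ε * (α - a)) := by
          apply mul_left_cancel₀ wa.ne'; linarith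
        have i2 : l * b = l' * (b + ε * (β - b)) := by
          apply mul_left_cancel₀ wb.ne'; linarith
        have i3 : l = l' := by linear_combination i1 + i2 + j3 - l * hs' + l' * (1 - ε) * hs' + l' * ε * hs
        subst i3
        have pe : l * ε ≠ 0 := (mul_pos l0 k4.1).ne'
        apply hc
        refine ⟨?_, ?_, ?_⟩ <;> apply mul_left_cancel₀ pe <;> linarith
    obtain ⟨p, q, p0, q0, e2⟩ := h.comb' hy hx hne k4.1 k4.2
    rw [show a • A + b • B + c • C + ε • (α • A + β • B + γ • C - (a • A + b • B + c • C)) =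
      (a + ε * (α - a)) • A + (b + ε * (β - b)) • B + (c + ε * (γ - c)) • C by module, e', e] at e2
    refine ⟨l' * ε / q, (l' * (1 - ε) - p * l) / q, div_pos (mul_pos l0' k4.1) q0, ?_⟩
    have e4 : Ψ (α • A + β • B + γ • C) = q⁻¹ • (l' • ((wA * (a + ε * (α - a))) • Ψ A +
        (wB * (b + ε * (β - b))) • Ψ B + (c + ε * (γ - c)) • Ψ C) -
        p • l • ((wA * a) • Ψ A + (wB * b) • Ψ B + c • Ψ C)) := by
      rw [e2, add_sub_cancel_left, smul_smul, inv_mul_cancel₀ q0.ne', one_smul]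
    rw [e4]
    match_scalars <;> field_simp <;> ring
  obtain ⟨p1, q1, r1, e1⟩ := ext1 (1 / 2) (1 / 4) (1 / 4) (by norm_num) (by norm_num) (by norm_num)
    (by norm_num)
  obtain ⟨p2, q2, r2, e2⟩ := ext1 (1 / 4) (1 / 2) (1 / 4) (by norm_num) (by norm_num) (by norm_num)
    (by norm_num)
  obtain ⟨p3, q3, r3, e3⟩ := ext1 (1 / 4) (1 / 4) (1 / 2) (by norm_num) (by norm_num) (by norm_num)
    (by norm_num)
  by_cases z1 : q1 = 0
  · exact ⟨p1, r1, by rw [e1, z1]; module⟩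
  by_cases z2 : q2 = 0
  · exact ⟨p2, r2, by rw [e2, z2]; module⟩
  by_cases z3 : q3 = 0
  · exact ⟨p3, r3, by rw [e3, z3]; module⟩
  exfalso
  obtain ⟨a1, a2, a3⟩ := hi.eq (e1.symm.trans e2)
  obtain ⟨b1, b2, b3⟩ := hi.eq (e1.symm.trans e3)
  have a1' := mul_left_cancel₀ wa.ne' a1
  have a2' := mul_left_cancel₀ wb.ne' a2
  have b1' := mul_left_cancel₀ wa.ne' b1
  have b2' := mul_left_cancel₀ wb.ne' b2
  have u1 : (p1 - p2) * (β - γ) = q2 / 4 := by linarith
  have u2 : (p1 - p3) * (β - γ) = -q3 / 4 := by linarith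
  have u3 : (p1 - p2) * (α - γ) = -q1 / 4 := by linarith
  have u4 : (p1 - p3) * (α - β) = -q1 / 4 := by linarith
  have u5 : p1 - p2 = q2 - q1 := by linear_combination a1' + a2' + a3 - (p1 - p2) * hs
  have u6 : p1 - p3 = q3 - q1 := by linear_combination b1' + b2' + b3 - (p1 - p3) * hs
  have v1 : (p1 - p2) * q3 + (p1 - p3) * q2 = 0 := by
    linear_combination 4 * (p1 - p2) * u2 - 4 * (p1 - p3) * u1
  have v2 : (p1 - p3) * q1 + (p1 - p3) * q2 - (p1 - p2) * q1 = 0 := by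
    linear_combination 4 * (p1 - p3) * u3 - 4 * (p1 - p2) * u4 - 4 * (p1 - p3) * u1
  rw [u5, u6] at v1 v2
  have w1 : q2 * (q3 - q1) = 0 := by linear_combination (1 / 3 : ℝ) * (v1 + v2)
  have w2 : q3 - q1 = 0 := (mul_eq_zero.1 w1).resolve_left z2
  rw [u6, w2] at u4
  apply z1; linarith

end Pool.Agent.H.MP_7a5b4a_gt
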