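import Pool.Agent.H.MP_7a5b4a_gt.A
import Pool.Agent.H.MP_7a5b4a_gt.B

set_option autoImplicit false

namespace Pool.Agent.H.MP_7a5b4a_gt

open Filter Topology Set

def Geo (M : Set (ℝ × ℝ)) (d : ℝ × ℝ → ℝ × ℝ → ℝ) (p v : ℝ × ℝ) (f : ℝ → ℝ × ℝ) : Prop :=
  (∀ s t, d (f s) (f t) = |s - t|) ∧ range f = {x | x ∈ M ∧ ∃ t : ℝ, x = p + t • v}

structure PM (M : Set (ℝ × ℝ)) (d : ℝ × ℝ → ℝ × ℝ → ℝ) : Prop where
  op : IsOpen M
  conv : Convex ℝ M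
  ne : M.Nonempty
  symm : ∀ x ∈ M, ∀ y ∈ M, d x y = d y x
  sep : ∀ x ∈ M, ∀ y ∈ M, (d x y = 0 ↔ x = y)
  tri : ∀ x ∈ M, ∀ y ∈ M, ∀ z ∈ M, d x z ≤ d x y + d y z
  cont : ContinuousOn (fun p : (ℝ × ℝ) × (ℝ × ℝ) => d p.1 p.2) (M ×ˢ M)
  geo : ∀ p ∈ M, ∀ v : ℝ × ℝ, v ≠ 0 → ∃ f, Geo M d p v f

def Th (σ : ℝ → ℝ) (M : Set (ℝ × ℝ)) (d : ℝ × ℝ → ℝ × ℝ → ℝ) : Prop :=
  ∀ m ∈ M, ∀ r : ℝ, 0 < r → ∀ A ∈ M, ∀ B ∈ M, ∀ P ∈ M, m ∈ openSegment ℝ A B → d m A = r →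
    d m B = r → d m P = r → P ∉ affineSpan ℝ {A, B} →
    σ (d A P / 2) ^ 2 + σ (d B P / 2) ^ 2 = σ r ^ 2

variable {M : Set (ℝ × ℝ)} {d : ℝ × ℝ → ℝ × ℝ → ℝ} {p v : ℝ × ℝ} {f : ℝ → ℝ × ℝ}

lemma Geo.mem (g : Geo M d p v f) (t : ℝ) : f t ∈ M ∧ ∃ τ : ℝ, f t = p + τ • v := by
  have : f t ∈ range f := ⟨t, rfl⟩
  rwa [g.2] at this

lemma Geo.ex (g : Geo M d p v f) {τ : ℝ} (h : p + τ • v ∈ M) : ∃ s, f s = p + τ • v := by
  have : p + τ • v ∈ range f := by rw [g.2]; exact ⟨h, τ, rfl⟩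
  exact this

lemma PM.self (h : PM M d) {x : ℝ × ℝ} (hx : x ∈ M) : d x x = 0 := (h.sep x hx x hx).2 rfl

lemma PM.pos (h : PM M d) {x y : ℝ × ℝ} (hx : x ∈ M) (hy : y ∈ M) (hne : x ≠ y) : 0 < d x y := by
  have h1 := h.tri x hx y hy x hx
  rw [h.self hx, h.symm y hy x hx] at h1
  exact lt_of_le_of_ne (by linarith) (fun e => hne ((h.sep x hx y hy).1 e.symm))

lemma PM.btwK (h : PM M d) (g : Geo M d p v f) (hv : v ≠ 0) {τ₁ τ₂ τ₃ s₁ s₂ s₃ : ℝ}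
    (h12 : τ₁ < τ₂) (h23 : τ₂ < τ₃) (e1 : f s₁ = p + τ₁ • v) (e2 : f s₂ = p + τ₂ • v)
    (e3 : f s₃ = p + τ₃ • v) : (s₁ < s₂ ∧ s₂ < s₃) ∨ (s₃ < s₂ ∧ s₂ < s₁) := by
  have m1 := (g.mem s₁).1
  have m3 := (g.mem s₃).1
  rw [e1] at m1
  rw [e3] at m3
  have hm : ∀ τ ∈ Icc τ₁ τ₃, p + τ • v ∈ M := by
    intro τ hτ
    have d0 : 0 < τ₃ - τ₁ := by linarith
    have := h.conv.add_smul_sub_mem m1 m3 (t := (τ - τ₁) / (τ₃ - τ₁))
      ⟨div_nonneg (by linarith [hτ.1]) d0.le, by rw [div_le_one d0]; linarith [hτ.2]⟩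
    convert this using 1
    have e : p + τ₃ • v - (p + τ₁ • v) = (τ₃ - τ₁) • v := by module
    rw [e, smul_smul, div_mul_cancel₀ _ d0.ne']; module
  have ex : ∀ τ : ℝ, ∃ s, τ ∈ Icc τ₁ τ₃ → f s = p + τ • v := by
    intro τ
    by_cases hτ : τ ∈ Icc τ₁ τ₃
    · obtain ⟨s, hs⟩ := g.ex (hm τ hτ); exact ⟨s, fun _ => hs⟩
    · exact ⟨0, fun h => absurd h hτ⟩
  choose S hS using ex
  have finj : ∀ s t, f s = f t → s = t := by
    intro s t e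
    have := g.1 s t
    rw [e, h.self (g.mem t).1] at this
    exact sub_eq_zero.1 (abs_eq_zero.1 this.symm)
  have hc : ContinuousOn S (Icc τ₁ τ₃) := by
    intro τ hτ
    rw [ContinuousWithinAt, tendsto_iff_dist_tendsto_zero]
    have c1 : ContinuousOn (fun τ' : ℝ => d (p + τ' • v) (p + τ • v)) (Icc τ₁ τ₃) :=
      h.cont.comp (f := fun τ' : ℝ => (p + τ' • v, p + τ • v)) (by fun_prop)
        (fun τ' hτ' => ⟨hm τ' hτ', hm τ hτ⟩)
    have c2 := c1 τ hτ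
    rw [ContinuousWithinAt, h.self (hm τ hτ)] at c2
    refine c2.congr' ?_
    filter_upwards [self_mem_nhdsWithin] with τ' hτ'
    rw [← hS τ' hτ', ← hS τ hτ, g.1, Real.dist_eq]
  have hi : InjOn S (Icc τ₁ τ₃) := by
    intro a ha b hb e
    have := hS a ha
    rw [e, hS b hb] at this
    have h2 : (b - a) • v = 0 := by
      have h3 : (b - a) • v = p + b • v - (p + a • v) := by module
      rw [h3, this, sub_self]
    rcases smul_eq_zero.1 h2 with h3 | h3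
    · linarith
    · exact absurd h3 hv
  have i1 : τ₁ ∈ Icc τ₁ τ₃ := ⟨le_rfl, by linarith⟩
  have i2 : τ₂ ∈ Icc τ₁ τ₃ := ⟨h12.le, h23.le⟩
  have i3 : τ₃ ∈ Icc τ₁ τ₃ := ⟨by linarith, le_rfl⟩
  rw [finj s₁ (S τ₁) (by rw [e1, hS _ i1]), finj s₂ (S τ₂) (by rw [e2, hS _ i2]),
    finj s₃ (S τ₃) (by rw [e3, hS _ i3])]
  rcases hc.strictMonoOn_of_injOn_Icc' (by linarith) hi with h1 | h1
  · exact Or.inl ⟨h1 i1 i2 h12, h1 i2 i3 h23⟩
  · exact Or.inr ⟨h1 i2 i3 h23, h1 i1 i2 h12⟩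

lemma PM.btw (h : PM M d) (g : Geo M d p v f) (hv : v ≠ 0) {s₁ s₂ s₃ : ℝ} (h12 : s₁ < s₂)
    (h23 : s₂ < s₃) : f s₂ ∈ openSegment ℝ (f s₁) (f s₃) := by
  obtain ⟨τ₁, e1⟩ := (g.mem s₁).2
  obtain ⟨τ₂, e2⟩ := (g.mem s₂).2
  obtain ⟨τ₃, e3⟩ := (g.mem s₃).2
  have ne : ∀ {s t a b : ℝ}, s < t → f s = p + a • v → f t = p + b • v → a ≠ b := by
    intro s t a b hst ea eb e
    have := g.1 s t
    rw [ea, eb, e, ← eb, h.self (g.mem t).1] at this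
    have := abs_eq_zero.1 this.symm
    linarith
  have n12 := ne h12 e1 e2
  have n23 := ne h23 e2 e3
  have n13 := ne (h12.trans h23) e1 e3
  have fin : ∀ {a b c : ℝ}, a < b → b < c → p + b • v ∈ openSegment ℝ (p + a • v) (p + c • v) := by
    intro a b c hab hbc
    have d0 : 0 < c - a := by linarith
    refine ⟨(c - b) / (c - a), (b - a) / (c - a), div_pos (by linarith) d0, div_pos (by linarith) d0,
      by field_simp; ring, ?_⟩
    match_scalars <;> field_simp <;> ring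
  rcases lt_or_gt_of_ne n12 with a | a <;> rcases lt_or_gt_of_ne n23 with b | b
  · rw [e1, e2, e3]; exact fin a b
  · exfalso
    rcases lt_or_gt_of_ne n13 with c | c
    · rcases h.btwK g hv c b e1 e3 e2 with k | k <;> linarith [k.1, k.2]
    · rcases h.btwK g hv c a e3 e1 e2 with k | k <;> linarith [k.1, k.2]
  · exfalso
    rcases lt_or_gt_of_ne n13 with c | c
    · rcases h.btwK g hv a c e2 e1 e3 with k | k <;> linarith [k.1, k.2]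
    · rcases h.btwK g hv b c e2 e3 e1 with k | k <;> linarith [k.1, k.2]
  · rw [e1, e2, e3, openSegment_symm]; exact fin b a

lemma PM.rad (h : PM M d) (g : Geo M d p v f) {P : ℝ × ℝ} (hP : P ∈ M) (hn : P ∉ range f) :
    Rad (fun t => d P (f t)) where
  lip s t := by
    have := h.tri P hP _ (g.mem t).1 _ (g.mem s).1
    rwa [g.1, abs_sub_comm] at this
  pos t := h.pos hP (g.mem t).1 (fun e => hn ⟨t, e.symm⟩)
  tri s t := by
    have := h.tri _ (g.mem s).1 P hP _ (g.mem t).1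
    rwa [g.1, h.symm _ (g.mem s).1 P hP] at this

lemma PM.th (h : PM M d) {σ : ℝ → ℝ} (hT : Th σ M d) (g : Geo M d p v f) (hv : v ≠ 0)
    {P : ℝ × ℝ} (hP : P ∈ M) (hn : P ∉ range f) (m : ℝ) :
    σ (d P (f (m - d P (f m))) / 2) ^ 2 + σ (d P (f (m + d P (f m))) / 2) ^ 2 =
      σ (d P (f m)) ^ 2 := by
  have r0 := (h.rad g hP hn).pos m
  have := hT (f m) (g.mem m).1 _ r0 (f (m - d P (f m))) (g.mem _).1 (f (m + d P (f m)))
    (g.mem _).1 P hP (h.btw g hv (by linarith) (by linarith))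
    (by rw [g.1, sub_sub_cancel, abs_of_pos r0])
    (by rw [g.1, sub_add_cancel_left, abs_neg, abs_of_pos r0]) (h.symm _ (g.mem m).1 P hP) (by
      intro hs
      apply hn
      rw [g.2]
      refine ⟨hP, ?_⟩
      obtain ⟨t, ht⟩ := mem_affineSpan_pair_iff_exists_lineMap_eq.1 hs
      obtain ⟨τ₁, e1⟩ := (g.mem (m - d P (f m))).2
      obtain ⟨τ₂, e2⟩ := (g.mem (m + d P (f m))).2
      refine ⟨τ₁ + t * (τ₂ - τ₁), ?_⟩
      rw [← ht, e1, e2, AffineMap.lineMap_apply, vsub_eq_sub, vadd_eq_add]; module)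
  rwa [h.symm _ (g.mem _).1 P hP, h.symm _ (g.mem (m + d P (f m))).1 P hP] at this

lemma PM.hyp (h : PM M d) (hT : Th Real.sinh M d) (g : Geo M d p v f) (hv : v ≠ 0)
    {P : ℝ × ℝ} (hP : P ∈ M) :
    ∃ A B : ℝ, ∀ t, Real.cosh (d P (f t)) = A * Real.exp t + B * Real.exp (-t) := by
  by_cases hn : P ∈ range f
  · obtain ⟨s, rfl⟩ := hn
    refine ⟨Real.exp (-s) / 2, Real.exp s / 2, fun t => ?_⟩
    rw [g.1, Real.cosh_abs, Real.cosh_eq]
    simp only [Real.exp_sub, Real.exp_neg]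
    field_simp; ring
  · apply (h.rad g hP hn).hyp
    intro m
    have k := h.th hT g hv hP hn m
    have e : ∀ x : ℝ, Real.cosh x = 2 * Real.sinh (x / 2) ^ 2 + 1 := fun x => by
      have := Real.cosh_two_mul (x / 2)
      rw [Real.cosh_sq, show 2 * (x / 2) = x by ring] at this
      linarith
    rw [e (d P (f (m - _))), e (d P (f (m + _))), Real.cosh_sq]
    linarith

lemma PM.euc (h : PM M d) (hT : Th id M d) (g : Geo M d p v f) (hv : v ≠ 0)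
    {P : ℝ × ℝ} (hP : P ∈ M) : ∃ b c : ℝ, ∀ t, d P (f t) ^ 2 = (t - b) ^ 2 + c := by
  by_cases hn : P ∈ range f
  · obtain ⟨s, rfl⟩ := hn
    exact ⟨s, 0, fun t => by rw [g.1, sq_abs]; ring⟩
  · apply (h.rad g hP hn).euc
    intro m
    have k := h.th hT g hv hP hn m
    simp only [id] at k
    linarith

lemma PM.lp {W : Type*} [AddCommGroup W] [Module ℝ W] (h : PM M d) {σ : ℝ → ℝ} (hσ : Continuous σ)
    (hσ0 : ∀ x, 0 < x → 0 < σ x) {Ψ : ℝ × ℝ → W}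
    (H : ∀ p v f, v ≠ 0 → Geo M d p v f → ∀ s₁ s₂ s₃ : ℝ,
      σ (s₃ - s₁) • Ψ (f s₂) = σ (s₃ - s₂) • Ψ (f s₁) + σ (s₂ - s₁) • Ψ (f s₃)) :
    LP M (fun x y => σ (d x y)) Ψ where
  conv := h.conv
  cont := hσ.comp_continuousOn h.cont
  pos x hx y hy hne := hσ0 _ (h.pos hx hy hne)
  rel x hx z hz hne θ h0 h1 := by
    have hv : z - x ≠ 0 := sub_ne_zero.2 hne.symm
    obtain ⟨f, g⟩ := h.geo x hx _ hv
    obtain ⟨s₁, e1⟩ := g.ex (τ := 0) (by simpa using hx)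
    obtain ⟨s₂, e2⟩ := g.ex (h.conv.add_smul_sub_mem hx hz ⟨h0.le, h1.le⟩)
    obtain ⟨s₃, e3⟩ := g.ex (τ := 1) (by simpa using hz)
    have k := h.btwK g hv h0 h1 e1 e2 e3
    have e1' : f s₁ = x := by simpa using e1
    have e3' : f s₃ = z := by simpa using e3
    rw [← e2]
    generalize z - x = w at g e2 hv
    subst e1' e3'
    simp only [g.1]
    rcases k with k | k
    · rw [abs_of_neg (by linarith), abs_of_neg (by linarith), abs_of_neg (by linarith), neg_sub,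
        neg_sub, neg_sub]
      exact H _ _ f hv g s₁ s₂ s₃
    · rw [abs_of_pos (by linarith), abs_of_pos (by linarith), abs_of_pos (by linarith), add_comm]
      exact H _ _ f hv g s₃ s₂ s₁

end Pool.Agent.H.MP_7a5b4a_gt
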