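import Pool.Agent.H.MP_7a5b4a_gt.C

set_option autoImplicit false

namespace Pool.Agent.H.MP_7a5b4a_gt

open Filter Topology Set

variable {d : ℝ × ℝ → ℝ × ℝ → ℝ}

theorem euclid (h : PM univ d) (hT : Th id univ d) :
    ∃ T : (ℝ × ℝ) ≃ₗ[ℝ] (ℝ × ℝ), ∀ x y, d x y =
      Real.sqrt ((T (x - y)).1 ^ 2 + (T (x - y)).2 ^ 2) := by
  let Ψ : ℝ × ℝ → ((ℝ × ℝ → ℝ) × ℝ) := fun x => (fun P => d P x ^ 2 - d 0 x ^ 2, 1)
  have aff : ∀ p v f, v ≠ 0 → Geo univ d p v f → ∀ (P : ℝ × ℝ) (s₁ s₂ s₃ : ℝ),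
      (s₃ - s₁) * (d P (f s₂) ^ 2 - d 0 (f s₂) ^ 2) =
        (s₃ - s₂) * (d P (f s₁) ^ 2 - d 0 (f s₁) ^ 2) +
        (s₂ - s₁) * (d P (f s₃) ^ 2 - d 0 (f s₃) ^ 2) := by
    intro p v f hv g P s₁ s₂ s₃
    obtain ⟨b, c, e⟩ := h.euc hT g hv (mem_univ P)
    obtain ⟨b', c', e'⟩ := h.euc hT g hv (mem_univ 0)
    simp only [e, e']; ring
  have lp : LP univ (fun x y => id (d x y)) Ψ := h.lp continuous_id (fun x hx => hx) (by
    intro p v f hv g s₁ s₂ s₃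
    refine Prod.ext (funext fun P => ?_) (by simp [Ψ])
    simpa [Ψ] using aff p v f hv g P s₁ s₂ s₃)
  have sy : ∀ x y, d x y = d y x := fun x y => h.symm x trivial y trivial
  have d0 : ∀ x, d x x = 0 := fun x => h.self trivial
  have nA : ((0 : ℝ × ℝ)) ≠ (1, 0) := by simp [Prod.ext_iff]
  have hi : Ind (Ψ (1, 0)) (Ψ (0, 1)) (Ψ 0) := by
    intro p q r e
    have e1 : p + q + r = 0 := by simpa [Ψ] using congrArg Prod.snd e
    have e2 : ∀ P, p * (d P (1, 0) ^ 2 - d 0 (1, 0) ^ 2) + q * (d P (0, 1) ^ 2 - d 0 (0, 1) ^ 2) +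
        r * d P 0 ^ 2 = 0 := fun P => by simpa [Ψ, d0] using congrFun (congrArg Prod.fst e) P
    have q0 : q = 0 := by
      by_contra hq
      obtain ⟨f, g⟩ := h.geo 0 trivial (1, 0) nA.symm
      obtain ⟨s₀, f0⟩ := g.ex (τ := 0) trivial
      obtain ⟨s₁, f1⟩ := g.ex (τ := 1) trivial
      simp only [zero_smul, add_zero, one_smul, zero_add] at f0 f1
      have ns : s₁ - s₀ ≠ 0 := by
        intro e; apply nA; rw [← f0, ← f1, sub_eq_zero.1 e]
      have key : ∀ P, d P (f (s₀ - p / q * (s₁ - s₀))) ^ 2 - d 0 (f (s₀ - p / q * (s₁ - s₀))) ^ 2 =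
          d P (0, 1) ^ 2 - d 0 (0, 1) ^ 2 := by
        intro P
        have k := aff _ _ f nA.symm g P s₀ (s₀ - p / q * (s₁ - s₀)) s₁
        rw [f0, f1, d0] at k
        have k2 := e2 P
        apply mul_left_cancel₀ (mul_ne_zero ns hq)
        have e3 : p / q * q = p := div_mul_cancel₀ _ hq
        linear_combination q * k - (s₁ - s₀) * k2 + (s₁ - s₀) * d P 0 ^ 2 * e1
          + (s₁ - s₀) * (d P 0 ^ 2 - d P (1, 0) ^ 2 + d 0 (1, 0) ^ 2) * e3
      obtain ⟨τ, hτ⟩ := (g.mem (s₀ - p / q * (s₁ - s₀))).2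
      generalize f (s₀ - p / q * (s₁ - s₀)) = X at key hτ
      have k1 := key X
      have k2 := key (0, 1)
      rw [d0] at k1 k2
      rw [sy (0, 1) X] at k2
      have k3 : d X (0, 1) = 0 := by
        have : d X (0, 1) ^ 2 = 0 := by linarith
        exact pow_eq_zero_iff two_ne_zero |>.1 this
      have := (h.sep X trivial _ trivial).1 k3
      rw [hτ] at this
      simpa using congrArg Prod.snd this
    have k := e2 (1, 0)
    rw [q0, d0, sy (1, 0) 0, show r = -p by linarith] at k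
    have p1 := h.pos trivial trivial nA
    have p0 : p = 0 := by
      have : p * d 0 (1, 0) ^ 2 = 0 := by linarith
      exact (mul_eq_zero.1 this).resolve_right (by positivity)
    exact ⟨p0, q0, by linarith⟩
  obtain ⟨wA, wB, wa, wb, H⟩ := lp.ft trivial trivial trivial hi
  have H' : ∀ x : ℝ × ℝ, ∃ l : ℝ, 0 < l ∧ Ψ x =
      l • ((wA * x.1) • Ψ (1, 0) + (wB * x.2) • Ψ (0, 1) + (1 - x.1 - x.2) • Ψ 0) := by
    intro x
    have := H x.1 x.2 (1 - x.1 - x.2) (by ring) trivial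
    simpa using this
  have pos : ∀ x : ℝ × ℝ, 0 < wA * x.1 + wB * x.2 + (1 - x.1 - x.2) := by
    intro x
    obtain ⟨l, l0, e⟩ := H' x
    have : 1 = l * (wA * x.1 + wB * x.2 + (1 - x.1 - x.2)) := by
      simpa [Ψ, mul_add] using congrArg Prod.snd e
    exact (mul_pos_iff_of_pos_left l0).1 (by linarith)
  have w1 : wA = 1 := by
    by_contra hn
    have := pos (1 / (1 - wA), 0)
    have e : 1 - wA ≠ 0 := sub_ne_zero.2 (Ne.symm hn)
    have e2 : wA * (1 / (1 - wA)) + wB * 0 + (1 - 1 / (1 - wA) - 0) = 0 := by field_simp; ring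
    linarith
  have w2 : wB = 1 := by
    by_contra hn
    have := pos (0, 1 / (1 - wB))
    have e : 1 - wB ≠ 0 := sub_ne_zero.2 (Ne.symm hn)
    have e2 : wA * 0 + wB * (1 / (1 - wB)) + (1 - 0 - 1 / (1 - wB)) = 0 := by field_simp; ring
    linarith
  have bil : ∀ P x : ℝ × ℝ, d P x ^ 2 - d 0 x ^ 2 = x.1 * (d P (1, 0) ^ 2 - d 0 (1, 0) ^ 2) +
      x.2 * (d P (0, 1) ^ 2 - d 0 (0, 1) ^ 2) + (1 - x.1 - x.2) * d P 0 ^ 2 := by
    intro P x
    obtain ⟨l, l0, e⟩ := H' x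
    rw [w1, w2] at e
    have l1 : l = 1 := by
      have := congrArg Prod.snd e
      simp [Ψ] at this
      linarith
    have := congrFun (congrArg Prod.fst e) P
    simpa [Ψ, l1, d0] using this
  obtain ⟨a, ha⟩ : ∃ a, a = d 0 (1, 0) ^ 2 := ⟨_, rfl⟩
  obtain ⟨c, hc⟩ : ∃ c, c = d 0 (0, 1) ^ 2 := ⟨_, rfl⟩
  obtain ⟨b, hb⟩ : ∃ b, b = (a + c - d (1, 0) (0, 1) ^ 2) / 2 := ⟨_, rfl⟩
  have Q : ∀ x y : ℝ × ℝ, d x y ^ 2 =
      a * (x.1 - y.1) ^ 2 + 2 * b * (x.1 - y.1) * (x.2 - y.2) + c * (x.2 - y.2) ^ 2 := by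
    have g : ∀ x y : ℝ × ℝ, d x 0 ^ 2 + d 0 y ^ 2 - d x y ^ 2 =
        2 * (a * x.1 * y.1 + b * (x.1 * y.2 + x.2 * y.1) + c * x.2 * y.2) := by
      intro x y
      have k := bil x y
      have k1 := bil (1, 0) x
      have k2 := bil (0, 1) x
      rw [d0, sy (1, 0) x, sy (1, 0) 0] at k1
      rw [d0, sy (0, 1) x, sy (0, 1) 0, sy (0, 1) (1, 0)] at k2
      rw [sy x 0] at k ⊢
      rw [hb, ha, hc]
      linear_combination -k - y.1 * k1 - y.2 * k2
    intro x y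
    have k1 := g x y
    have k2 := g x x
    have k3 := g y y
    rw [d0] at k2 k3
    rw [sy x 0] at k1 k2
    rw [sy y 0] at k3
    linarith
  have a0 : 0 < a := by rw [ha]; have := h.pos trivial trivial nA; positivity
  have D0 : 0 < c - b ^ 2 / a := by
    have k := Q (-b / a, 1) 0
    have := h.pos (x := (-b / a, 1)) (y := 0) trivial trivial (by simp [Prod.ext_iff])
    have e : a * (-b / a - 0) ^ 2 + 2 * b * (-b / a - 0) * (1 - 0) + c * (1 - 0) ^ 2 =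
        c - b ^ 2 / a := by field_simp; ring
    simp only [Prod.fst_zero, Prod.snd_zero] at k
    rw [← e, ← k]; positivity
  obtain ⟨s, s0, hs⟩ : ∃ s : ℝ, 0 < s ∧ s ^ 2 = a := ⟨√a, by positivity, Real.sq_sqrt a0.le⟩
  obtain ⟨t, t0, ht⟩ : ∃ t : ℝ, 0 < t ∧ t ^ 2 = c - b ^ 2 / a :=
    ⟨√(c - b ^ 2 / a), by positivity, Real.sq_sqrt D0.le⟩
  let L : (ℝ × ℝ) →ₗ[ℝ] (ℝ × ℝ) :=
    (s • LinearMap.fst ℝ ℝ ℝ + (b / s) • LinearMap.snd ℝ ℝ ℝ).prod (t • LinearMap.snd ℝ ℝ ℝ)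
  have hL : ∀ z : ℝ × ℝ, L z = (s * z.1 + b / s * z.2, t * z.2) := fun z => rfl
  have inj : Function.Injective L := by
    rw [injective_iff_map_eq_zero]
    intro z hz
    rw [hL, Prod.mk_eq_zero] at hz
    have z2 : z.2 = 0 := (mul_eq_zero.1 hz.2).resolve_left t0.ne'
    have z1 : z.1 = 0 := by
      have := hz.1
      rw [z2, mul_zero, add_zero] at this
      exact (mul_eq_zero.1 this).resolve_left s0.ne'
    exact Prod.ext z1 z2
  refine ⟨LinearEquiv.ofInjectiveEndo L inj, fun x y => ?_⟩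
  have nn : 0 ≤ d x y := by
    by_cases e : x = y
    · rw [e, d0]
    · exact (h.pos trivial trivial e).le
  rw [← Real.sqrt_sq nn, Q]
  congr 1
  show _ = (L (x - y)).1 ^ 2 + (L (x - y)).2 ^ 2
  rw [hL]
  simp only [Prod.fst_sub, Prod.snd_sub, mul_pow, ht, ← hs]
  field_simp
  ring

end Pool.Agent.H.MP_7a5b4a_gt
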