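import Pool.Agent.H.MP_7a5b4a_gt.D

set_option autoImplicit false

namespace Pool.Agent.H.MP_7a5b4a_gt

open Filter Topology Set Real

variable {M : Set (ℝ × ℝ)} {d : ℝ × ℝ → ℝ × ℝ → ℝ}

lemma ex_third (h : PM M d) {O : ℝ × ℝ} (hO : O ∈ M) :
    ∃ ε : ℝ, 0 < ε ∧ O + ε • ((0, 1) : ℝ × ℝ) ∈ M := by
  have hc : Continuous (fun ε : ℝ => O + ε • ((0, 1) : ℝ × ℝ)) := by fun_prop
  have : ∀ᶠ ε : ℝ in 𝓝 0, O + ε • ((0, 1) : ℝ × ℝ) ∈ M :=
    hc.continuousAt.preimage_mem_nhds (by simpa using h.op.mem_nhds hO)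
  obtain ⟨ε, h1, h2⟩ := ((this.filter_mono nhdsWithin_le_nhds).and
    (self_mem_nhdsWithin (s := Ioi (0 : ℝ)))).exists
  exact ⟨ε, h2, h1⟩

/-- hyperboloid coordinates -/
lemma coords (h : PM M d) (hT : Th sinh M d) : ∃ (O : ℝ × ℝ) (T : ((ℝ × ℝ) × ℝ) ≃ₗ[ℝ] ((ℝ × ℝ) × ℝ))
    (X : ℝ × ℝ → (ℝ × ℝ) × ℝ), O ∈ M ∧ (∀ x ∈ M, ∃ l : ℝ, 0 < l ∧ X x = l • T (x, 1)) ∧
    (∀ x ∈ M, (X x).2 = cosh (d O x)) ∧
    ∀ x ∈ M, ∀ y ∈ M, cosh (d x y) = (X x).2 * (X y).2 - (X x).1.1 * (X y).1.1 -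
      (X x).1.2 * (X y).1.2 := by
  let Ψ : ℝ × ℝ → (M → ℝ) := fun x P => cosh (d P x)
  have lp : LP M (fun x y => sinh (d x y)) Ψ := h.lp continuous_sinh
    (fun x hx => sinh_pos_iff.2 hx) (by
      intro p v f hv g s₁ s₂ s₃
      funext P
      obtain ⟨A, B, e⟩ := h.hyp hT g hv P.2
      simp only [Ψ, Pi.add_apply, Pi.smul_apply, smul_eq_mul, e, sinh_eq, exp_sub, exp_neg]
      field_simp; ring)
  obtain ⟨O, hO⟩ := h.ne
  have v0 : ((1, 0) : ℝ × ℝ) ≠ 0 := by simp [Prod.ext_iff]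
  obtain ⟨f₀, g₀⟩ := h.geo O hO _ v0
  obtain ⟨s₀, e₀⟩ := g₀.ex (τ := 0) (by simpa using hO)
  have g : Geo M d O (1, 0) (fun t => f₀ (t + s₀)) := by
    refine ⟨fun s t => by rw [g₀.1, add_sub_add_right_eq_sub], ?_⟩
    rw [← g₀.2]
    exact (Function.Surjective.range_comp (add_right_surjective s₀) f₀)
  generalize hf : (fun t => f₀ (t + s₀)) = f at g
  have f0 : f 0 = O := by rw [← hf]; simpa using e₀
  obtain ⟨ε, ε0, hC⟩ := ex_third h hO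
  set C := O + ε • ((0, 1) : ℝ × ℝ) with hCd
  have nC : ∀ t, C ≠ f t := by
    intro t e
    obtain ⟨τ, hτ⟩ := (g.mem t).2
    rw [hτ, hCd] at e
    have := congrArg Prod.snd e
    simp at this
    linarith
  have ex : ∀ P : ℝ × ℝ, ∃ k : ℝ, P ∈ M → ∀ t, cosh (d P (f t)) =
      cosh t * cosh (d P O) + sinh t * k := by
    intro P
    by_cases hP : P ∈ M
    · obtain ⟨A, B, e⟩ := h.hyp hT g v0 hP
      refine ⟨A - B, fun _ t => ?_⟩
      have e0 := e 0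
      rw [f0] at e0
      rw [e, e0, cosh_eq, sinh_eq]; simp; ring
    · exact ⟨0, fun h => absurd h hP⟩
  choose k hk using ex
  have s1 : 0 < sinh 1 := sinh_pos_iff.2 one_pos
  have hB := (g.mem 1).1
  have kf : ∀ t, k (f t) = -sinh t := by
    intro t
    have := hk _ (g.mem t).1 1
    rw [← f0, g.1, g.1, cosh_abs, cosh_abs, sub_zero, cosh_sub] at this
    apply mul_left_cancel₀ s1.ne'; linarith
  set p := cosh (d C O) with hp
  set q := k C with hq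
  have hδ : 0 < p ^ 2 - q ^ 2 - 1 := by
    have gt : ∀ t, 1 < cosh t * p + sinh t * q := fun t => by
      rw [← hk C hC t]; exact one_lt_cosh.2 (h.pos hC (g.mem t).1 (nC t)).ne'
    have gt' : ∀ u : ℝ, 0 < u → 2 * u < (p + q) * u ^ 2 + (p - q) := by
      intro u hu
      have := gt (log u)
      rw [cosh_eq, sinh_eq, exp_neg, exp_log hu] at this
      have e : (u + u⁻¹) / 2 * p + (u - u⁻¹) / 2 * q = ((p + q) * u ^ 2 + (p - q)) / (2 * u) := by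
        field_simp; ring
      rwa [e, one_lt_div (by positivity)] at this
    have a0 : 0 < p + q := by
      by_contra hn
      push Not at hn
      have := gt' (|p - q| + 1) (by positivity)
      have := le_abs_self (p - q)
      have := abs_nonneg (p - q)
      nlinarith [sq_nonneg (|p - q| + 1)]
    have := gt' (1 / (p + q)) (by positivity)
    have e : (p + q) * (1 / (p + q)) ^ 2 = 1 / (p + q) := by field_simp
    rw [e] at this
    have h2 : 1 / (p + q) < p - q := by linarith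
    rw [div_lt_iff₀ a0] at h2
    nlinarith
  obtain ⟨δ, δ0, hδ2⟩ : ∃ δ : ℝ, 0 < δ ∧ δ ^ 2 = p ^ 2 - q ^ 2 - 1 :=
    ⟨√(p ^ 2 - q ^ 2 - 1), by positivity, sq_sqrt hδ.le⟩
  have ch := cosh_sq 1
  have dOB : d O (f 1) = 1 := by rw [← f0, g.1]; norm_num
  have dBC : cosh (d C (f 1)) = cosh 1 * p + sinh 1 * q := hk C hC 1
  have hi : Ind (Ψ O) (Ψ (f 1)) (Ψ C) := by
    intro a b c e
    have e1 := congrFun e ⟨O, hO⟩
    have e2 := congrFun e ⟨f 1, hB⟩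
    have e3 := congrFun e ⟨C, hC⟩
    simp only [Ψ, Pi.add_apply, Pi.smul_apply, smul_eq_mul, Pi.zero_apply, h.self hO, h.self hB,
      h.self hC, cosh_zero, h.symm _ hB _ hO, h.symm _ hB _ hC, h.symm _ hO _ hC, dOB, dBC,
      ← hp] at e1 e2 e3
    have k1 : b * sinh 1 - c * q = 0 := by
      apply mul_left_cancel₀ s1.ne'
      linear_combination cosh 1 * e1 - e2 - b * ch
    have k2 : c = 0 := by
      apply mul_right_cancel₀ (pow_pos δ0 2).ne'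
      linear_combination p * e1 + q * k1 - e3 + c * hδ2
    have k3 : b = 0 := by
      rw [k2] at k1; simpa [s1.ne'] using k1
    rw [k2, k3] at e1
    exact ⟨by linarith, k3, k2⟩
  obtain ⟨wA, wB, wa, wb, H⟩ := lp.ft hO hB hC hi
  obtain ⟨τ, hτ⟩ := (g.mem 1).2
  have τ0 : τ ≠ 0 := by
    rintro rfl
    rw [hτ] at dOB; simp [h.self hO] at dOB
  let Lβ : ((ℝ × ℝ) × ℝ) →ₗ[ℝ] ℝ := τ⁻¹ • ((LinearMap.fst ℝ ℝ ℝ).comp (LinearMap.fst ℝ _ ℝ) -
    O.1 • LinearMap.snd ℝ _ ℝ)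
  let Lγ : ((ℝ × ℝ) × ℝ) →ₗ[ℝ] ℝ := ε⁻¹ • ((LinearMap.snd ℝ ℝ ℝ).comp (LinearMap.fst ℝ _ ℝ) -
    O.2 • LinearMap.snd ℝ _ ℝ)
  let Lα : ((ℝ × ℝ) × ℝ) →ₗ[ℝ] ℝ := LinearMap.snd ℝ _ ℝ - Lβ - Lγ
  have hβ : ∀ z, Lβ z = τ⁻¹ * (z.1.1 - O.1 * z.2) := fun z => rfl
  have hγ : ∀ z, Lγ z = ε⁻¹ * (z.1.2 - O.2 * z.2) := fun z => rfl
  have hα : ∀ z, Lα z = z.2 - Lβ z - Lγ z := fun z => rfl
  let L : ((ℝ × ℝ) × ℝ) →ₗ[ℝ] ((ℝ × ℝ) × ℝ) :=
    (((wB * sinh 1) • Lβ - q • Lγ).prod (δ • Lγ)).prod (wA • Lα + (wB * cosh 1) • Lβ + p • Lγ)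
  have hL : ∀ z, L z = ((wB * sinh 1 * Lβ z - q * Lγ z, δ * Lγ z),
      wA * Lα z + wB * cosh 1 * Lβ z + p * Lγ z) := fun z => rfl
  have inj : Function.Injective L := by
    rw [injective_iff_map_eq_zero]
    intro z hz
    rw [hL, Prod.mk_eq_zero, Prod.mk_eq_zero] at hz
    obtain ⟨⟨z1, z2⟩, z3⟩ := hz
    have c0 : Lγ z = 0 := (mul_eq_zero.1 z2).resolve_left δ0.ne'
    have b0 : Lβ z = 0 := by
      rw [c0, mul_zero, sub_zero] at z1
      exact (mul_eq_zero.1 z1).resolve_left (by positivity)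
    have a0 : Lα z = 0 := by
      rw [c0, b0, mul_zero, mul_zero, add_zero, add_zero] at z3
      exact (mul_eq_zero.1 z3).resolve_left wa.ne'
    rw [hα, b0, c0] at a0
    have y2 : z.2 = 0 := by linarith
    rw [hβ, y2] at b0
    rw [hγ, y2] at c0
    refine Prod.ext (Prod.ext ?_ ?_) y2
    · simpa [τ0] using b0
    · simpa [ε0.ne'] using c0
  let X : ℝ × ℝ → (ℝ × ℝ) × ℝ := fun x =>
    ((-k x, -(cosh (d x C) - p * cosh (d x O) + q * k x) / δ), cosh (d O x))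
  have rep : ∀ x ∈ M, ∃ l : ℝ, 0 < l ∧ ∀ P ∈ M, cosh (d P x) = l * (wA * Lα (x, 1) * cosh (d P O) +
      wB * Lβ (x, 1) * cosh (d P (f 1)) + Lγ (x, 1) * cosh (d P C)) := by
    intro x hx
    have e : Lα (x, 1) • O + Lβ (x, 1) • f 1 + Lγ (x, 1) • C = x := by
      rw [hα, hβ, hγ, hτ, hCd]
      ext <;> simp <;> field_simp <;> ring
    obtain ⟨l, l0, e2⟩ := H (Lα (x, 1)) (Lβ (x, 1)) (Lγ (x, 1)) (by rw [hα]; ring) (by rwa [e])
    rw [e] at e2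
    exact ⟨l, l0, fun P hP => by simpa [Ψ, mul_add] using congrFun e2 ⟨P, hP⟩⟩
  have rep2 : ∀ x ∈ M, ∃ l : ℝ, 0 < l ∧ X x = l • L (x, 1) ∧ ∀ P ∈ M, cosh (d P x) =
      l * (wA * Lα (x, 1) * cosh (d P O) + wB * Lβ (x, 1) * cosh (d P (f 1)) +
        Lγ (x, 1) * cosh (d P C)) := by
    intro x hx
    obtain ⟨l, l0, e⟩ := rep x hx
    refine ⟨l, l0, ?_, e⟩
    have e1 := e O hO
    have e2 := e _ hB
    have e3 := e C hC
    have e4 := hk x hx 1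
    simp only [h.self hO, h.self hB, h.self hC, cosh_zero, h.symm _ hB _ hO, h.symm _ hB _ hC,
      h.symm _ hO _ hC, dOB, dBC, ← hp] at e1 e2 e3
    rw [h.symm _ hx _ hB, h.symm _ hx _ hO] at e4
    have k1 : -k x = l * (wB * sinh 1 * Lβ (x, 1) - q * Lγ (x, 1)) := by
      apply mul_left_cancel₀ s1.ne'
      linear_combination e4 - e2 + cosh 1 * e1 + l * wB * Lβ (x, 1) * ch
    rw [hL]
    refine Prod.ext (Prod.ext k1 ?_) ?_
    · show -(cosh (d x C) - p * cosh (d x O) + q * k x) / δ = l * (δ * Lγ (x, 1))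
      rw [div_eq_iff δ0.ne', h.symm _ hx _ hC, h.symm _ hx _ hO]
      linear_combination -e3 + p * e1 + q * k1 - l * Lγ (x, 1) * hδ2
    · show cosh (d O x) = l * (wA * Lα (x, 1) + wB * cosh 1 * Lβ (x, 1) + p * Lγ (x, 1))
      linear_combination e1
  refine ⟨O, LinearEquiv.ofInjectiveEndo L inj, X, hO, fun x hx => ?_, fun x _ => rfl,
    fun x hx y hy => ?_⟩
  · obtain ⟨l, l0, e, -⟩ := rep2 x hx
    exact ⟨l, l0, e⟩
  · obtain ⟨l, l0, e, e2⟩ := rep2 y hy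
    rw [e, e2 x hx, hL, hk x hx 1]
    simp only [X, Prod.smul_fst, Prod.smul_snd, smul_eq_mul, h.symm _ hO _ hx]
    field_simp
    ring

theorem klein (h : PM M d) (hT : Th sinh M d) :
    ∃ T : ((ℝ × ℝ) × ℝ) ≃ₗ[ℝ] ((ℝ × ℝ) × ℝ), (∀ x ∈ M, 0 < (T (x, 1)).2) ∧
      ∀ φ : ℝ × ℝ → ℝ × ℝ, (∀ x, φ x = (T (x, 1)).2⁻¹ • (T (x, 1)).1) →
      BijOn φ M {w | w.1 ^ 2 + w.2 ^ 2 < 1} ∧ ∀ x ∈ M, ∀ y ∈ M, cosh (d x y) =
        (1 - (φ x).1 * (φ y).1 - (φ x).2 * (φ y).2) /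
          √((1 - ((φ x).1 ^ 2 + (φ x).2 ^ 2)) * (1 - ((φ y).1 ^ 2 + (φ y).2 ^ 2))) := by
  obtain ⟨O, T, X, hO, h1, h2, h3⟩ := coords h hT
  have X0 : ∀ x ∈ M, 0 < (X x).2 := fun x hx => by rw [h2 x hx]; exact cosh_pos _
  have T0 : ∀ x ∈ M, 0 < (T (x, 1)).2 := fun x hx => by
    obtain ⟨l, l0, e⟩ := h1 x hx
    have := X0 x hx
    rw [e] at this
    exact (mul_pos_iff_of_pos_left l0).1 this
  refine ⟨T, T0, fun φ hg => ?_⟩
  have pX : ∀ x ∈ M, (φ x).1 = (X x).1.1 / (X x).2 ∧ (φ x).2 = (X x).1.2 / (X x).2 := by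
    intro x hx
    obtain ⟨l, l0, e⟩ := h1 x hx
    have := (T0 x hx).ne'
    rw [hg, e]
    simp only [Prod.smul_fst, Prod.smul_snd, smul_eq_mul]
    constructor <;> field_simp
  have nX : ∀ x ∈ M, 1 - ((φ x).1 ^ 2 + (φ x).2 ^ 2) = ((X x).2⁻¹) ^ 2 := by
    intro x hx
    have k := h3 x hx x hx
    rw [h.self hx, cosh_zero] at k
    have := (X0 x hx).ne'
    rw [(pX x hx).1, (pX x hx).2]
    field_simp
    linarith
  have form : ∀ x ∈ M, ∀ y ∈ M, cosh (d x y) = (1 - (φ x).1 * (φ y).1 - (φ x).2 * (φ y).2) /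
      √((1 - ((φ x).1 ^ 2 + (φ x).2 ^ 2)) * (1 - ((φ y).1 ^ 2 + (φ y).2 ^ 2))) := by
    intro x hx y hy
    have p1 := X0 x hx
    have p2 := X0 y hy
    rw [nX x hx, nX y hy, ← mul_pow, sqrt_sq (by positivity), h3 x hx y hy, (pX x hx).1,
      (pX x hx).2, (pX y hy).1, (pX y hy).2]
    field_simp
  have maps : ∀ x ∈ M, (φ x).1 ^ 2 + (φ x).2 ^ 2 < 1 := fun x hx => by
    have k := nX x hx
    have := X0 x hx
    have : 0 < ((X x).2⁻¹) ^ 2 := by positivity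
    linarith
  have inj : InjOn φ M := by
    intro x hx y hy e
    have k := form x hx y hy
    have := maps y hy
    rw [e, sqrt_mul_self (by linarith), show 1 - (φ y).1 * (φ y).1 - (φ y).2 * (φ y).2 =
      1 - ((φ y).1 ^ 2 + (φ y).2 ^ 2) by ring, div_self (by linarith)] at k
    by_contra hne
    have := one_lt_cosh.2 (h.pos hx hy hne).ne'
    linarith
  refine ⟨⟨maps, inj, ?_⟩, form⟩
  intro w hw
  have hw' : w.1 ^ 2 + w.2 ^ 2 < 1 := hw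
  have gO : φ O = 0 := by
    have k := nX O hO
    rw [h2 O hO, h.self hO, cosh_zero] at k
    ext <;> simp <;> nlinarith [sq_nonneg (φ O).1, sq_nonneg (φ O).2]
  by_cases w0 : w = 0
  · exact ⟨O, hO, by rw [gO, w0]⟩
  have TO : (T (O, 1)).1 = 0 := by
    rw [hg] at gO
    exact (smul_eq_zero.1 gO).resolve_left (inv_ne_zero (T0 O hO).ne')
  set z := T.symm (w, 1) with hz
  have Tz : T z = (w, 1) := by simp [hz]
  have Tv : (T (z.1 - z.2 • O, 0)).1 = w := by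
    have : ((z.1 - z.2 • O, 0) : (ℝ × ℝ) × ℝ) = z - z.2 • (O, 1) := by ext <;> simp
    rw [this, map_sub, map_smul, Tz]; simp [TO]
  have v0 : z.1 - z.2 • O ≠ 0 := by
    intro e
    rw [e] at Tv
    apply w0; rw [← Tv]; exact congrArg Prod.fst (map_zero T)
  obtain ⟨f, g⟩ := h.geo O hO _ v0
  obtain ⟨s₀, e₀⟩ := g.ex (τ := 0) (by simpa using hO)
  rw [zero_smul, add_zero] at e₀
  have n0 : 0 < w.1 ^ 2 + w.2 ^ 2 := by
    by_contra hn
    apply w0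
    ext <;> simp <;> nlinarith [sq_nonneg w.1, sq_nonneg w.2]
  have q0 : 0 < 1 - (w.1 ^ 2 + w.2 ^ 2) := by linarith
  have q1 : 1 < (√(1 - (w.1 ^ 2 + w.2 ^ 2)))⁻¹ := by
    apply (one_lt_inv₀ (by positivity)).2
    rw [sqrt_lt' one_pos]; linarith
  set a := arcosh (√(1 - (w.1 ^ 2 + w.2 ^ 2)))⁻¹ with ha
  have a0 : 0 < a := arcosh_pos q1
  have key : ∀ t, |s₀ - t| = a → φ (f t) = w ∨ φ (f t) = -w := by
    intro t ht
    obtain ⟨hm, τ, hτ⟩ := g.mem t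
    have e1 : φ (f t) = ((T (f t, 1)).2⁻¹ * τ) • w := by
      have : ((f t, 1) : (ℝ × ℝ) × ℝ) = (O, 1) + τ • (z.1 - z.2 • O, 0) := by
        rw [hτ]; ext <;> simp
      rw [hg, ← smul_smul]
      congr 1
      rw [this, map_add, map_smul, Prod.fst_add, Prod.smul_fst, TO, Tv, zero_add]
    have k := nX _ hm
    rw [h2 _ hm, ← e₀, g.1, ht, ha, cosh_arcosh q1.le, inv_inv, sq_sqrt q0.le, e1] at k
    generalize (T (f t, 1)).2⁻¹ * τ = c at k e1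
    simp only [Prod.smul_fst, Prod.smul_snd, smul_eq_mul] at k
    have : (c - 1) * (c + 1) = 0 := by
      apply mul_right_cancel₀ n0.ne'; linarith
    rcases mul_eq_zero.1 this with h | h
    · left; rw [e1, show c = 1 by linarith, one_smul]
    · right; rw [e1, show c = -1 by linarith, neg_one_smul]
  rcases key (s₀ + a) (by simp [abs_of_pos a0]) with k1 | k1
  · exact ⟨_, (g.mem _).1, k1⟩
  rcases key (s₀ - a) (by simp [abs_of_pos a0]) with k2 | k2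
  · exact ⟨_, (g.mem _).1, k2⟩
  exfalso
  have e := inj (g.mem _).1 (g.mem _).1 (k1.trans k2.symm)
  have := g.1 (s₀ + a) (s₀ - a)
  rw [e, h.self (g.mem _).1] at this
  have := abs_eq_zero.1 this.symm
  linarith

end Pool.Agent.H.MP_7a5b4a_gt
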