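import Mathlib

set_option autoImplicit false

namespace Pool.Agent.H.MP_7a5b4a_gt

open Filter Topology Set Real

lemma circ_rep (c : AddCircle π) : ∃ σ : ℝ, (σ : AddCircle π) = c ∧ ‖c‖ = |σ| := by
  obtain ⟨x, rfl⟩ := QuotientAddGroup.mk_surjective c
  refine ⟨x - round (π⁻¹ * x) * π, ?_, AddCircle.norm_eq π⟩
  rw [AddCircle.coe_sub, sub_eq_self, ← zsmul_eq_mul, AddCircle.coe_zsmul, AddCircle.coe_period,
    smul_zero]

lemma circ_le (x : ℝ) : ‖(x : AddCircle π)‖ ≤ |x| := QuotientAddGroup.norm_mk_le_norm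

theorem elliptic (d : Projectivization ℝ (Fin 3 → ℝ) → Projectivization ℝ (Fin 3 → ℝ) → ℝ)
    (hsymm : ∀ x y, d x y = d y x) (hself : ∀ x, d x x = 0)
    (htri : ∀ x y z, d x z ≤ d x y + d y z)
    (hcont : Continuous fun p : {v : Fin 3 → ℝ // v ≠ 0} × {v : Fin 3 → ℝ // v ≠ 0} =>
      d (Projectivization.mk ℝ p.1.1 p.1.2) (Projectivization.mk ℝ p.2.1 p.2.2))
    (hgeo : ∀ W : Submodule ℝ (Fin 3 → ℝ), Module.finrank ℝ W = 2 →
      ∃ f : AddCircle π → Projectivization ℝ (Fin 3 → ℝ),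
        (∀ a b, d (f a) (f b) = dist a b) ∧ range f = {p | p.submodule ≤ W})
    (hT : ∀ W : Submodule ℝ (Fin 3 → ℝ), Module.finrank ℝ W = 2 → ∀ m A B P, ∀ r : ℝ, 0 < r →
      r < π / 2 → m.submodule ≤ W → A.submodule ≤ W → B.submodule ≤ W → A ≠ B → d m A = r →
      d m B = r → d m P = r → ¬ P.submodule ≤ W →
      sin (d A P / 2) ^ 2 + sin (d B P / 2) ^ 2 = sin r ^ 2) : False := by
  have pi3 := pi_gt_three
  have pi4 := pi_lt_d2
  have nn : ∀ x y, 0 ≤ d x y := fun x y => by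
    have := htri x y x
    rw [hself, hsymm y x] at this; linarith
  have rk : ∀ w : Fin 3 → ℝ, w 1 ≠ 0 ∨ w 2 ≠ 0 →
      Module.finrank ℝ (Submodule.span ℝ {(![1, 0, 0] : Fin 3 → ℝ), w}) = 2 := by
    intro w hw
    have li : LinearIndependent ℝ ![(![1, 0, 0] : Fin 3 → ℝ), w] := by
      rw [LinearIndependent.pair_iff]
      intro s t e
      have e0 := congrFun e 0
      have e1 := congrFun e 1
      have e2 := congrFun e 2
      simp at e0 e1 e2
      have t0 : t = 0 := by tauto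
      rw [t0] at e0
      exact ⟨by simpa using e0, t0⟩
    have := finrank_span_eq_card li
    rwa [Matrix.range_cons_cons_empty] at this
  have e0 : (![1, 0, 0] : Fin 3 → ℝ) ≠ 0 := fun e => by simpa using congrFun e 0
  have sub : ∀ (v : Fin 3 → ℝ) (hv : v ≠ 0) (W : Submodule ℝ (Fin 3 → ℝ)),
      (Projectivization.mk ℝ v hv).submodule ≤ W ↔ v ∈ W := by
    intro v hv W
    rw [Projectivization.submodule_mk, Submodule.span_singleton_le_iff_mem]
  set m := Projectivization.mk ℝ _ e0 with hm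
  set W := Submodule.span ℝ {(![1, 0, 0] : Fin 3 → ℝ), ![0, 1, 0]} with hW
  have W2 : ∀ v ∈ W, v 2 = 0 := by
    intro v hv
    obtain ⟨s, t, rfl⟩ := Submodule.mem_span_pair.1 hv
    simp
  have rW : Module.finrank ℝ W = 2 := rk _ (Or.inl (by simp))
  obtain ⟨f, f1, f2⟩ := hgeo W rW
  have mW : m.submodule ≤ W := (sub _ _ _).2 (Submodule.subset_span (by simp))
  obtain ⟨a, ha⟩ : m ∈ range f := by rw [f2]; exact mW
  have fW : ∀ c, (f c).submodule ≤ W := fun c => by
    have : f c ∈ range f := ⟨c, rfl⟩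
    rwa [f2] at this
  have nr : ∀ x : ℝ, |x| ≤ π / 2 → ‖(x : AddCircle π)‖ = |x| := fun x hx =>
    (AddCircle.norm_coe_eq_abs_iff π pi_pos.ne').2 (by rwa [abs_of_pos pi_pos])
  have r0 : 0 < 3 * π / 8 := by positivity
  have nr' : ‖((3 * π / 8 : ℝ) : AddCircle π)‖ = 3 * π / 8 := by
    rw [nr _ (by rw [abs_of_pos r0]; linarith), abs_of_pos r0]
  have dA : d m (f (a - ((3 * π / 8 : ℝ) : AddCircle π))) = 3 * π / 8 := by
    rw [← ha, f1, dist_eq_norm, sub_sub_cancel, nr']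
  have dB : d m (f (a + ((3 * π / 8 : ℝ) : AddCircle π))) = 3 * π / 8 := by
    rw [← ha, f1, dist_eq_norm, sub_add_cancel_left, norm_neg, nr']
  have dAB : d (f (a - ((3 * π / 8 : ℝ) : AddCircle π))) (f (a + ((3 * π / 8 : ℝ) : AddCircle π)))
      = π / 4 := by
    rw [f1, dist_eq_norm]
    have : a - ((3 * π / 8 : ℝ) : AddCircle π) - (a + ((3 * π / 8 : ℝ) : AddCircle π)) =
        ((π / 4 : ℝ) : AddCircle π) := by
      have e : (π / 4 : ℝ) = π - (3 * π / 8 + 3 * π / 8) := by ring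
      rw [e, AddCircle.coe_sub, AddCircle.coe_period, AddCircle.coe_add]; abel
    rw [this, nr _ (by rw [abs_of_pos (by positivity)]; linarith), abs_of_pos (by positivity)]
  have hBW := fW (a + ((3 * π / 8 : ℝ) : AddCircle π))
  have hAW := fW (a - ((3 * π / 8 : ℝ) : AddCircle π))
  generalize f (a - ((3 * π / 8 : ℝ) : AddCircle π)) = A at dA dAB hAW
  generalize f (a + ((3 * π / 8 : ℝ) : AddCircle π)) = B at dB dAB hBW
  have nAB : A ≠ B := by
    intro e; rw [e, hself] at dAB; linarith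
  induction B using Projectivization.ind with
  | h b hb =>
  have b2 : b 2 = 0 := W2 _ ((sub _ _ _).1 hBW)
  have bne : ∀ ε : ℝ, b + ε • (![0, 0, 1] : Fin 3 → ℝ) ≠ 0 := by
    intro ε e
    have e2 := congrFun e 2
    simp [b2] at e2
    rw [e2] at e
    exact hb (by simpa using e)
  have c1 : Continuous (fun ε : ℝ => d (Projectivization.mk ℝ b hb)
      (Projectivization.mk ℝ _ (bne ε))) :=
    hcont.comp (f := fun ε : ℝ => ((⟨b, hb⟩, ⟨_, bne ε⟩) :
      {v : Fin 3 → ℝ // v ≠ 0} × {v : Fin 3 → ℝ // v ≠ 0}))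
      (continuous_const.prodMk (Continuous.subtype_mk (by fun_prop) _))
  have c2 : ∀ᶠ ε : ℝ in 𝓝 0, d (Projectivization.mk ℝ b hb)
      (Projectivization.mk ℝ _ (bne ε)) < 1 / 20 := by
    apply c1.continuousAt.eventually_lt continuousAt_const
    simp [hself]
  obtain ⟨ε, h1, h2⟩ := ((c2.filter_mono nhdsWithin_le_nhds).and
    (self_mem_nhdsWithin (s := Ioi (0 : ℝ)))).exists
  have ε0 : 0 < ε := h2
  set w := b + ε • (![0, 0, 1] : Fin 3 → ℝ) with hw
  have w2 : w 2 = ε := by rw [hw, Pi.add_apply, b2]; simp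
  obtain ⟨g, g1, g2⟩ := hgeo _ (rk w (Or.inr (by rw [w2]; exact ε0.ne')))
  obtain ⟨c₀, hc₀⟩ : m ∈ range g := by
    rw [g2]; exact (sub _ _ _).2 (Submodule.subset_span (by simp))
  obtain ⟨c₁, hc₁⟩ : Projectivization.mk ℝ w (bne ε) ∈ range g := by
    rw [g2]; exact (sub _ _ _).2 (Submodule.subset_span (by simp))
  obtain ⟨σ, s1, s2⟩ := circ_rep (c₁ - c₀)
  have d1 : d m (Projectivization.mk ℝ w (bne ε)) = |σ| := by
    rw [← hc₀, ← hc₁, g1, dist_comm, dist_eq_norm, s2]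
  have t1 := htri m (Projectivization.mk ℝ b hb) (Projectivization.mk ℝ w (bne ε))
  have t2 := htri m (Projectivization.mk ℝ w (bne ε)) (Projectivization.mk ℝ b hb)
  rw [hsymm (Projectivization.mk ℝ w _)] at t2
  obtain ⟨ρ, ρ1, ρ2⟩ : ∃ ρ : ℝ, |ρ| = 3 * π / 8 ∧ |σ - ρ| < 1 / 20 := by
    rcases le_total 0 σ with h | h
    · refine ⟨3 * π / 8, abs_of_pos r0, ?_⟩
      rw [abs_of_nonneg h] at d1
      rw [abs_lt]; constructor <;> linarith
    · refine ⟨-(3 * π / 8), by rw [abs_neg, abs_of_pos r0], ?_⟩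
      rw [abs_of_nonpos h] at d1
      rw [abs_lt]; constructor <;> linarith
  have dP : d m (g (c₀ + (ρ : AddCircle π))) = 3 * π / 8 := by
    rw [← hc₀, g1, dist_eq_norm, sub_add_cancel_left, norm_neg, nr _ (by linarith), ρ1]
  have dP' : d (Projectivization.mk ℝ w (bne ε)) (g (c₀ + (ρ : AddCircle π))) < 1 / 20 := by
    rw [← hc₁, g1, dist_eq_norm, ← sub_sub, ← s1, ← AddCircle.coe_sub]
    exact lt_of_le_of_lt (circ_le _) ρ2
  have gW : (g (c₀ + (ρ : AddCircle π))).submodule ≤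
      Submodule.span ℝ {(![1, 0, 0] : Fin 3 → ℝ), w} := by
    have : g (c₀ + (ρ : AddCircle π)) ∈ range g := ⟨_, rfl⟩
    rwa [g2] at this
  generalize g (c₀ + (ρ : AddCircle π)) = P at dP dP' gW
  have nP : ¬ P.submodule ≤ W := by
    intro hP
    induction P using Projectivization.ind with
    | h u hu =>
    have u2 := W2 _ ((sub _ _ _).1 hP)
    obtain ⟨s, t, e⟩ := Submodule.mem_span_pair.1 ((sub _ _ _).1 gW)
    have t0 : t = 0 := by
      have := congrFun e 2
      simp [w2, u2, ε0.ne'] at this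
      exact this
    have : Projectivization.mk ℝ u hu = m := by
      rw [hm, Projectivization.mk_eq_mk_iff']
      exact ⟨s, by rw [← e, t0]; simp⟩
    rw [this, hself] at dP
    linarith
  have k := hT W rW m A _ P _ r0 (by linarith) mW hAW hBW nAB dA dB dP nP
  have y1 := htri (Projectivization.mk ℝ b hb) (Projectivization.mk ℝ w (bne ε)) P
  have x1 := htri A (Projectivization.mk ℝ b hb) P
  have x0 := nn A P
  have y0 := nn (Projectivization.mk ℝ b hb) P
  have k1 := sin_sq_le_sq (x := d A P / 2)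
  have k2 := sin_sq_le_sq (x := d (Projectivization.mk ℝ b hb) P / 2)
  have k3 : cos (2 * (3 * π / 8)) < 0 :=
    cos_neg_of_pi_div_two_lt_of_lt (by linarith) (by linarith)
  rw [cos_two_mul, cos_sq'] at k3
  nlinarith

end Pool.Agent.H.MP_7a5b4a_gt
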